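import Mathlib

/-!
# Speed scaling: schedules, energy, total flow time
-/

set_option autoImplicit false

namespace Pool.Agent.Helper82.Speed

open MeasureTheory

/-- A (preemptive) schedule on one processor of variable speed for jobs with release times `r`
and works `w`: at every time `t` a speed and at most one job, which must be released and not yet
finished. `compl i` is the completion time of job `i`: the first time at which the amount of work
processed for `i` reaches `w i`. -/
structure Schedule {ι : Type} (r w : ι → ℝ) where
  /-- the speed of the processor at time `t` -/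
  speed : ℝ → ℝ
  /-- the job processed at time `t`, if any -/
  job : ℝ → Option ι
  /-- the completion times -/
  compl : ι → ℝ
  measurable_speed : Measurable speed
  speed_nonneg : ∀ t, 0 ≤ speed t
  measurableSet_job : ∀ i, MeasurableSet {t | job t = some i}
  released : ∀ t i, job t = some i → r i ≤ t
  unfinished : ∀ t i, job t = some i → t < compl i
  isLeast_compl : ∀ i, IsLeast {t : ℝ | 0 ≤ t ∧ ENNReal.ofReal (w i) ≤
    ∫⁻ x in {x : ℝ | 0 ≤ x ∧ x ≤ t ∧ job x = some i}, ENNReal.ofReal (speed x)} (compl i)

/-- The energy of a schedule, when running at speed `s` uses power `s ^ α`. -/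
noncomputable def Schedule.energy {ι : Type} {r w : ι → ℝ} (σ : Schedule r w) (α : ℝ) : ENNReal :=
  ∫⁻ x in {x : ℝ | 0 ≤ x}, ENNReal.ofReal (σ.speed x ^ α)

/-- The total flow time of a schedule. -/
noncomputable def Schedule.flow {ι : Type} [Fintype ι] {r w : ι → ℝ} (σ : Schedule r w) : ℝ :=
  ∑ i, (σ.compl i - r i)

/-- The optimal total flow time over all schedules of energy at most `E`. -/
noncomputable def opt {ι : Type} [Fintype ι] (α : ℝ) (r w : ι → ℝ) (E : ℝ) : ℝ :=
  sInf {F : ℝ | ∃ σ : Schedule r w, σ.energy α ≤ ENNReal.ofReal E ∧ σ.flow = F}

end Pool.Agent.Helper82.Speed
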