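import Mathlib
import Pool.Agent.Helper82.Speed.Defs

set_option autoImplicit false

namespace Pool.Agent.Helper82.Speed

open MeasureTheory Set

section build

variable {ι π : Type} [Fintype π] (lo hi sp : π → ℝ) (jb : π → ι)

open Classical in
/-- the job processed at time `x` -/
noncomputable def bJob (x : ℝ) : Option ι :=
  if h : ∃ p, x ∈ Ico (lo p) (hi p) then some (jb h.choose) else none

/-- the speed at time `x` -/
noncomputable def bSpeed (x : ℝ) : ℝ := ∑ p, (Ico (lo p) (hi p)).indicator (fun _ => sp p) x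

variable {lo hi sp jb}

theorem bJob_eq (hd : ∀ p q, p ≠ q → Disjoint (Ico (lo p) (hi p)) (Ico (lo q) (hi q)))
    {p : π} {x : ℝ} (hx : x ∈ Ico (lo p) (hi p)) : bJob lo hi jb x = some (jb p) := by
  have h : ∃ p, x ∈ Ico (lo p) (hi p) := ⟨p, hx⟩
  unfold bJob
  rw [dif_pos h]
  have : h.choose = p := by
    by_contra hne
    exact (Set.disjoint_left.1 (hd _ _ hne) h.choose_spec) hx
  rw [this]

theorem bJob_some {x : ℝ} {i : ι} (hx : bJob lo hi jb x = some i) :
    ∃ p, x ∈ Ico (lo p) (hi p) ∧ jb p = i := by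
  unfold bJob at hx
  split_ifs at hx with h
  exact ⟨h.choose, h.choose_spec, Option.some_injective _ hx⟩

theorem bSpeed_eq (hd : ∀ p q, p ≠ q → Disjoint (Ico (lo p) (hi p)) (Ico (lo q) (hi q)))
    {p : π} {x : ℝ} (hx : x ∈ Ico (lo p) (hi p)) : bSpeed lo hi sp x = sp p := by
  unfold bSpeed
  rw [Finset.sum_eq_single p]
  · exact indicator_of_mem hx _
  · intro q _ hq
    exact indicator_of_notMem (fun h => Set.disjoint_left.1 (hd q p hq) h hx) _
  · intro h; exact absurd (Finset.mem_univ _) h

theorem bSpeed_zero {x : ℝ} (hx : ∀ p, x ∉ Ico (lo p) (hi p)) : bSpeed lo hi sp x = 0 := by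
  unfold bSpeed
  exact Finset.sum_eq_zero fun p _ => indicator_of_notMem (hx p) _

open Classical in
theorem bJob_set (hd : ∀ p q, p ≠ q → Disjoint (Ico (lo p) (hi p)) (Ico (lo q) (hi q))) (i : ι) :
    {x | bJob lo hi jb x = some i} =
      ⋃ p ∈ (Finset.univ.filter fun p => jb p = i), Ico (lo p) (hi p) := by
  ext x
  simp only [mem_iUnion, Finset.mem_filter, Finset.mem_univ, true_and, exists_prop]
  constructor
  · intro hx
    obtain ⟨p, hp, hp'⟩ := bJob_some hx
    exact ⟨p, hp', hp⟩
  · rintro ⟨p, hp, hx⟩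
    show bJob lo hi jb x = some i
    rw [bJob_eq hd hx, hp]

open Classical in
theorem work_eq (hd : ∀ p q, p ≠ q → Disjoint (Ico (lo p) (hi p)) (Ico (lo q) (hi q)))
    (h0 : ∀ p, 0 ≤ lo p) (i : ι) (t : ℝ) :
    ∫⁻ x in {x : ℝ | 0 ≤ x ∧ x ≤ t ∧ bJob lo hi jb x = some i},
      ENNReal.ofReal (bSpeed lo hi sp x) =
    ∑ p ∈ (Finset.univ.filter fun p => jb p = i),
      ENNReal.ofReal (sp p) * volume (Ico (lo p) (hi p) ∩ Iic t) := by
  have e : {x : ℝ | 0 ≤ x ∧ x ≤ t ∧ bJob lo hi jb x = some i} =
      ⋃ p ∈ (Finset.univ.filter fun p => jb p = i), (Ico (lo p) (hi p) ∩ Iic t) := by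
    ext x
    simp only [mem_iUnion, Finset.mem_filter, Finset.mem_univ, true_and, exists_prop]
    constructor
    · rintro ⟨_, h2, h3⟩
      obtain ⟨p, hp, hp'⟩ := bJob_some h3
      exact ⟨p, hp', hp, h2⟩
    · rintro ⟨p, hp, hx, h2⟩
      exact ⟨(h0 p).trans hx.1, h2, by rw [bJob_eq hd hx, hp]⟩
  rw [e, lintegral_biUnion_finset]
  · refine Finset.sum_congr rfl fun p _ => ?_
    have hm : MeasurableSet (Ico (lo p) (hi p) ∩ Iic t) := measurableSet_Ico.inter measurableSet_Iic
    rw [setLIntegral_congr_fun hm (g := fun _ => ENNReal.ofReal (sp p))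
      (fun x hx => by rw [bSpeed_eq hd hx.1]), setLIntegral_const]
  · intro p _ q _ hpq
    exact (hd p q hpq).mono inter_subset_left inter_subset_left
  · intro p _
    exact measurableSet_Ico.inter measurableSet_Iic

open Classical in
/-- Piecewise constant schedules. -/
theorem exists_schedule {r w C : ι → ℝ}
    (hd : ∀ p q, p ≠ q → Disjoint (Ico (lo p) (hi p)) (Ico (lo q) (hi q)))
    (h0 : ∀ p, 0 ≤ lo p) (hlt : ∀ p, lo p < hi p) (hsp : ∀ p, 0 < sp p)
    (hrel : ∀ p, r (jb p) ≤ lo p) (hC : ∀ p, hi p ≤ C (jb p))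
    (hC' : ∀ i, ∃ p, jb p = i ∧ hi p = C i)
    (hw : ∀ i, ∑ p, (if jb p = i then sp p * (hi p - lo p) else 0) = w i) :
    ∃ σ : Schedule r w, σ.compl = C ∧ ∀ α : ℝ, 0 < α →
      σ.energy α = ENNReal.ofReal (∑ p, sp p ^ α * (hi p - lo p)) := by
  have hw' : ∀ i, ∑ p ∈ (Finset.univ.filter fun p => jb p = i), sp p * (hi p - lo p) = w i := by
    intro i; rw [Finset.sum_filter]; exact hw i
  refine ⟨{
    speed := bSpeed lo hi sp
    job := bJob lo hi jb
    compl := C
    measurable_speed := ?_
    speed_nonneg := ?_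
    measurableSet_job := ?_
    released := ?_
    unfinished := ?_
    isLeast_compl := ?_ }, rfl, ?_⟩
  · exact Finset.measurable_sum _ fun p _ => measurable_const.indicator measurableSet_Ico
  · intro t
    exact Finset.sum_nonneg fun p _ => indicator_nonneg (fun _ _ => (hsp p).le) _
  · intro i
    rw [bJob_set hd i]
    exact Finset.measurableSet_biUnion _ fun p _ => measurableSet_Ico
  · intro t i ht
    obtain ⟨p, hp, rfl⟩ := bJob_some ht
    exact (hrel p).trans hp.1
  · intro t i ht
    obtain ⟨p, hp, rfl⟩ := bJob_some ht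
    exact lt_of_lt_of_le hp.2 (hC p)
  · intro i
    obtain ⟨p0, hp0, hp0'⟩ := hC' i
    constructor
    · refine ⟨?_, ?_⟩
      · rw [← hp0']; exact (h0 p0).trans (hlt p0).le
      · rw [work_eq hd h0]
        rw [← hw' i, ENNReal.ofReal_sum_of_nonneg
          (fun p _ => mul_nonneg (hsp p).le (sub_nonneg.2 (hlt p).le))]
        refine Finset.sum_le_sum fun p hp => ?_
        rw [Finset.mem_filter] at hp
        rw [ENNReal.ofReal_mul (hsp p).le]
        refine mul_le_mul_right ?_ _
        have : Ico (lo p) (hi p) ∩ Iic (C i) = Ico (lo p) (hi p) := by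
          apply inter_eq_left.2
          intro x hx
          exact hx.2.le.trans (hp.2 ▸ hC p)
        rw [this, Real.volume_Ico]
    · rintro t ⟨ht0, ht⟩
      rw [work_eq hd h0] at ht
      by_contra hlt'
      push Not at hlt'
      have h1 : ∑ p ∈ (Finset.univ.filter fun p => jb p = i),
          ENNReal.ofReal (sp p) * volume (Ico (lo p) (hi p) ∩ Iic t) ≤
          ENNReal.ofReal (∑ p ∈ (Finset.univ.filter fun p => jb p = i),
            sp p * max 0 (min (hi p) t - lo p)) := by
        rw [ENNReal.ofReal_sum_of_nonneg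
          (fun p _ => mul_nonneg (hsp p).le (le_max_left _ _))]
        refine Finset.sum_le_sum fun p _ => ?_
        rw [ENNReal.ofReal_mul (hsp p).le]
        refine mul_le_mul_right ?_ _
        calc volume (Ico (lo p) (hi p) ∩ Iic t) ≤ volume (Icc (lo p) (min (hi p) t)) :=
              measure_mono fun x hx => ⟨hx.1.1, le_min hx.1.2.le hx.2⟩
          _ = ENNReal.ofReal (min (hi p) t - lo p) := Real.volume_Icc
          _ ≤ _ := ENNReal.ofReal_le_ofReal (le_max_right _ _)
      have h2 := (ENNReal.ofReal_le_ofReal_iff (Finset.sum_nonneg fun p _ =>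
        mul_nonneg (hsp p).le (le_max_left _ _))).1 (ht.trans h1)
      rw [← hw' i] at h2
      refine absurd h2 (not_le.2 ?_)
      refine Finset.sum_lt_sum (fun p _ => ?_) ⟨p0, ?_, ?_⟩
      · refine mul_le_mul_of_nonneg_left ?_ (hsp p).le
        exact max_le (sub_nonneg.2 (hlt p).le) (sub_le_sub_right (min_le_left _ _) _)
      · rw [Finset.mem_filter]; exact ⟨Finset.mem_univ _, hp0⟩
      · refine mul_lt_mul_of_pos_left ?_ (hsp p0)
        refine max_lt (sub_pos.2 (hlt p0)) (sub_lt_sub_right ?_ _)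
        rw [hp0']; exact lt_of_le_of_lt (min_le_right _ _) hlt'
  · intro α hα
    unfold Schedule.energy
    show ∫⁻ x in {x : ℝ | 0 ≤ x}, ENNReal.ofReal (bSpeed lo hi sp x ^ α) = _
    have e : ∀ x, ENNReal.ofReal (bSpeed lo hi sp x ^ α) =
        ∑ p, (Ico (lo p) (hi p)).indicator (fun _ => ENNReal.ofReal (sp p ^ α)) x := by
      intro x
      by_cases hx : ∃ p, x ∈ Ico (lo p) (hi p)
      · obtain ⟨p, hp⟩ := hx
        rw [bSpeed_eq hd hp, Finset.sum_eq_single p]
        · rw [indicator_of_mem hp]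
        · intro q _ hq
          rw [indicator_of_notMem (fun h => Set.disjoint_left.1 (hd q p hq) h hp)]
        · intro h; exact absurd (Finset.mem_univ _) h
      · push Not at hx
        rw [bSpeed_zero hx, Real.zero_rpow hα.ne', ENNReal.ofReal_zero]
        exact (Finset.sum_eq_zero fun p _ => indicator_of_notMem (hx p) _).symm
    simp only [e]
    rw [lintegral_finsetSum]
    · rw [ENNReal.ofReal_sum_of_nonneg
          (fun p _ => mul_nonneg (Real.rpow_nonneg (hsp p).le _) (sub_nonneg.2 (hlt p).le))]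
      refine Finset.sum_congr rfl fun p _ => ?_
      rw [lintegral_indicator measurableSet_Ico, Measure.restrict_restrict measurableSet_Ico,
        setLIntegral_const, ENNReal.ofReal_mul (Real.rpow_nonneg (hsp p).le _)]
      congr 1
      have : Ico (lo p) (hi p) ∩ {x : ℝ | 0 ≤ x} = Ico (lo p) (hi p) := by
        apply inter_eq_left.2
        intro x hx
        exact (h0 p).trans hx.1
      rw [this, Real.volume_Ico]
    · intro p _
      exact measurable_const.indicator measurableSet_Ico

end build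

end Pool.Agent.Helper82.Speed
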