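import Mathlib

/-!
# Elementary inequalities for speed scaling
-/

set_option autoImplicit false

namespace Pool.Agent.Helper82.Speed

open Real

/-- Bernoulli for negative exponents. -/
theorem rpow_neg_ge {τ q : ℝ} (hτ : 0 < τ) (hq : 0 ≤ q) : 1 - q * (τ - 1) ≤ τ ^ (-q) := by
  rw [rpow_def_of_pos hτ]
  have h1 := Real.add_one_le_exp (Real.log τ * -q)
  have h2 := Real.log_le_sub_one_of_pos hτ
  nlinarith [mul_le_mul_of_nonneg_left h2 hq]

/-- the basic convex function -/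
noncomputable def psi (s τ : ℝ) : ℝ := τ - 1 + (τ ^ (-s) - 1) / s

theorem psi_nonneg {s τ : ℝ} (hs : 0 < s) (hτ : 0 < τ) : 0 ≤ psi s τ := by
  unfold psi
  have h := rpow_neg_ge hτ hs.le
  have : -(τ - 1) ≤ (τ ^ (-s) - 1) / s := by
    rw [le_div_iff₀ hs]; linarith
  linarith

theorem psi_lower {s τ η : ℝ} (hs : 0 < s) (hτ : 0 < τ) (hη : 0 < η) :
    |τ - 1| - η ≤ (2 + 1 / (s * η)) * psi s τ := by
  have h0 := psi_nonneg hs hτ
  have hse : 0 < s * η := mul_pos hs hη
  have hc : 0 < 1 / (s * η) := by positivity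
  by_cases hcase : 0 ≤ 1 - s / 2 * (τ - 1)
  · -- quadratic regime
    have h1 := rpow_neg_ge hτ (by positivity : (0 : ℝ) ≤ s / 2)
    have h2 : τ ^ (-s) = (τ ^ (-(s / 2))) ^ 2 := by
      rw [← rpow_natCast, ← rpow_mul hτ.le]; congr 1; push_cast; ring
    have h3 : (1 - s / 2 * (τ - 1)) ^ 2 ≤ τ ^ (-s) := by
      rw [h2]; exact pow_le_pow_left₀ hcase h1 2
    have h4 : s / 4 * (τ - 1) ^ 2 ≤ psi s τ := by
      unfold psi
      have : -(τ - 1) + s / 4 * (τ - 1) ^ 2 ≤ (τ ^ (-s) - 1) / s := by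
        rw [le_div_iff₀ hs]; nlinarith
      linarith
    have h5 : |τ - 1| - η ≤ 1 / (s * η) * (s / 4 * (τ - 1) ^ 2) := by
      have e : 1 / (s * η) * (s / 4 * (τ - 1) ^ 2) = (τ - 1) ^ 2 / (4 * η) := by
        field_simp
      rw [e, le_div_iff₀ (by positivity)]
      have : (τ - 1) ^ 2 = |τ - 1| ^ 2 := (sq_abs _).symm
      nlinarith [sq_nonneg (|τ - 1| - 2 * η)]
    have h6 : 1 / (s * η) * (s / 4 * (τ - 1) ^ 2) ≤ 1 / (s * η) * psi s τ :=
      mul_le_mul_of_nonneg_left h4 hc.le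
    nlinarith
  · -- linear regime
    push Not at hcase
    have h1 : 2 / s < τ - 1 := by
      rw [div_lt_iff₀ hs]; nlinarith
    have h2 : 0 < τ - 1 := lt_trans (by positivity) h1
    have h3 : (τ - 1) / 2 ≤ psi s τ := by
      unfold psi
      have h4 : 0 < τ ^ (-s) := rpow_pos_of_pos hτ _
      have h5 : -1 / s ≤ (τ ^ (-s) - 1) / s := by
        apply div_le_div_of_nonneg_right _ hs.le; linarith
      have h6 : -1 / s = -(2 / s) / 2 := by ring
      linarith
    have h4 : |τ - 1| = τ - 1 := abs_of_pos h2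
    rw [h4]
    nlinarith [mul_nonneg hc.le h0]

/-- The bracket inequality: `P` is the weighted length of a piece, `Q` the weighted work, `e` the
energy. -/
theorem bracket {α γ P Q e : ℝ} (hα : 1 < α) (hγ : γ = 1 / (α - 1)) (hP : 0 ≤ P) (hQ : 0 ≤ Q)
    (he : 0 ≤ e) (h : Q ^ α ≤ e * P ^ (α - 1)) : 0 ≤ P + γ * e - (1 + γ) * Q ∧
    ∀ η : ℝ, 0 < η → |P - Q| ≤ η * Q + (2 + 1 / ((α - 1) * η)) * (P + γ * e - (1 + γ) * Q) := by
  have hs : 0 < α - 1 := by linarith
  have hγ0 : 0 < γ := by rw [hγ]; positivity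
  rcases hQ.eq_or_lt with hQ0 | hQ0
  · subst hQ0
    have h1 : 0 ≤ γ * e := mul_nonneg hγ0.le he
    refine ⟨by linarith, fun η hη => ?_⟩
    have : 0 < 1 / ((α - 1) * η) := by positivity
    rw [sub_zero, abs_of_nonneg hP]
    nlinarith [mul_nonneg this.le (by linarith : 0 ≤ P + γ * e - (1 + γ) * 0)]
  · have hP0 : 0 < P := by
      rcases hP.eq_or_lt with h0 | h0
      · subst h0
        rw [zero_rpow hs.ne', mul_zero] at h
        exact absurd h (not_le.2 (rpow_pos_of_pos hQ0 _))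
      · exact h0
    set τ := P / Q with hτ
    have hτ0 : 0 < τ := div_pos hP0 hQ0
    have hPQ : P = τ * Q := by rw [hτ]; field_simp
    have h1 : Q * τ ^ (-(α - 1)) ≤ e := by
      have hPp : 0 < P ^ (α - 1) := rpow_pos_of_pos hP0 _
      have e1 : Q * τ ^ (-(α - 1)) = Q ^ α / P ^ (α - 1) := by
        rw [hτ, rpow_neg (div_pos hP0 hQ0).le, div_rpow hP0.le hQ0.le, inv_div]
        rw [mul_div_assoc']
        congr 1
        rw [show α = 1 + (α - 1) by ring, rpow_add hQ0, rpow_one]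
        ring_nf
      rw [e1, div_le_iff₀ hPp]; exact h
    have h2 : Q * psi (α - 1) τ ≤ P + γ * e - (1 + γ) * Q := by
      have : γ * (Q * τ ^ (-(α - 1))) ≤ γ * e := mul_le_mul_of_nonneg_left h1 hγ0.le
      have e2 : Q * psi (α - 1) τ = P + γ * (Q * τ ^ (-(α - 1))) - (1 + γ) * Q := by
        unfold psi
        rw [hPQ, hγ]; field_simp; ring
      linarith
    have h3 := psi_nonneg hs hτ0
    refine ⟨le_trans (mul_nonneg hQ0.le h3) h2, fun η hη => ?_⟩
    have h4 := psi_lower hs hτ0 hη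
    have h5 : |P - Q| = Q * |τ - 1| := by
      rw [hPQ, ← abs_of_pos hQ0, ← abs_mul, abs_of_pos hQ0]; ring_nf
    have hc : 0 < 2 + 1 / ((α - 1) * η) := by positivity
    rw [h5]
    have h6 := mul_le_mul_of_nonneg_left h4 hQ0.le
    have h7 := mul_le_mul_of_nonneg_left h2 hc.le
    nlinarith

end Pool.Agent.Helper82.Speed
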