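import Mathlib
import Pool.Agent.Helper82.Speed.Defs
import Pool.Agent.Helper82.Speed.Numeric

set_option autoImplicit false

namespace Pool.Agent.Helper82.Speed

open MeasureTheory Set

/-- Hoelder's inequality on a piece of time. -/
theorem holder_piece {α : ℝ} (hα : 1 < α) {f : ℝ → ℝ} (hf : Measurable f) (hf0 : ∀ t, 0 ≤ f t)
    {K : Set ℝ} {u v : ℝ} (huv : u ≤ v) (hK : K ⊆ Icc u v)
    (he : ∫⁻ x in K, ENNReal.ofReal (f x ^ α) ≠ ⊤) :
    ∫⁻ x in K, ENNReal.ofReal (f x) ≠ ⊤ ∧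
    (∫⁻ x in K, ENNReal.ofReal (f x)).toReal ^ α ≤
      (∫⁻ x in K, ENNReal.ofReal (f x ^ α)).toReal * (v - u) ^ (α - 1) := by
  have hα0 : 0 < α := by linarith
  have hq : α.HolderConjugate (α / (α - 1)) := Real.HolderConjugate.conjExponent hα
  have h := ENNReal.lintegral_mul_le_Lp_mul_Lq (volume.restrict K) hq
    (f := fun x => ENNReal.ofReal (f x)) (g := fun _ => 1)
    (hf.ennreal_ofReal.aemeasurable) aemeasurable_const
  have e1 : ∀ x, ENNReal.ofReal (f x) ^ α = ENNReal.ofReal (f x ^ α) := fun x =>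
    ENNReal.ofReal_rpow_of_nonneg (hf0 x) hα0.le
  simp only [Pi.mul_apply, mul_one, e1, ENNReal.one_rpow, lintegral_const, one_mul,
    Measure.restrict_apply MeasurableSet.univ, univ_inter] at h
  have hvol : volume K ≤ ENNReal.ofReal (v - u) := by
    calc volume K ≤ volume (Icc u v) := measure_mono hK
      _ = ENNReal.ofReal (v - u) := Real.volume_Icc
  set Y := ∫⁻ x in K, ENNReal.ofReal (f x) with hY
  set En := ∫⁻ x in K, ENNReal.ofReal (f x ^ α) with hEn
  have hq0 : 0 < α / (α - 1) := div_pos hα0 (by linarith)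
  have h2 : Y ≤ En ^ (1 / α) * ENNReal.ofReal (v - u) ^ (1 / (α / (α - 1))) :=
    h.trans (mul_le_mul_right (ENNReal.rpow_le_rpow hvol (by positivity)) _)
  have hYt : Y ≠ ⊤ := by
    refine ne_top_of_le_ne_top ?_ h2
    exact ENNReal.mul_ne_top (ENNReal.rpow_ne_top_of_nonneg (by positivity) he)
      (ENNReal.rpow_ne_top_of_nonneg (by positivity) ENNReal.ofReal_ne_top)
  refine ⟨hYt, ?_⟩
  have h3 : Y ^ α ≤ En * ENNReal.ofReal (v - u) ^ (α - 1) := by
    calc Y ^ α ≤ (En ^ (1 / α) * ENNReal.ofReal (v - u) ^ (1 / (α / (α - 1)))) ^ α :=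
          ENNReal.rpow_le_rpow h2 hα0.le
      _ = En * ENNReal.ofReal (v - u) ^ (α - 1) := by
          rw [ENNReal.mul_rpow_of_nonneg _ _ hα0.le, ← ENNReal.rpow_mul, ← ENNReal.rpow_mul]
          congr 2
          · rw [one_div, inv_mul_cancel₀ hα0.ne', ENNReal.rpow_one]
          · field_simp
  have h4 : (Y ^ α).toReal ≤ (En * ENNReal.ofReal (v - u) ^ (α - 1)).toReal :=
    ENNReal.toReal_mono (ENNReal.mul_ne_top he
      (ENNReal.rpow_ne_top_of_nonneg (by linarith) ENNReal.ofReal_ne_top)) h3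
  rw [← ENNReal.toReal_rpow, ENNReal.toReal_mul, ← ENNReal.toReal_rpow,
    ENNReal.toReal_ofReal (by linarith)] at h4
  exact h4

end Pool.Agent.Helper82.Speed
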