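import Mathlib
import Pool.Agent.Helper82.Speed.Holder

set_option autoImplicit false

namespace Pool.Agent.Helper82.Speed

open MeasureTheory Set

/-- `2 ^ ((α - 1) / α)` -/
noncomputable def kp (α : ℝ) : ℝ := 2 ^ ((α - 1) / α)

theorem kp_pow {α : ℝ} (hα : 1 < α) : kp α ^ α = 2 ^ (α - 1) := by
  unfold kp
  rw [← Real.rpow_mul (by norm_num)]
  congr 1
  field_simp

theorem kp_pos (α : ℝ) : 0 < kp α := Real.rpow_pos_of_pos (by norm_num) _

/-- combination of three pieces -/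
theorem three_pieces {α γ : ℝ} (hα : 1 < α) (hγ : γ = 1 / (α - 1)) {P Q e : Fin 3 → ℝ}
    (hP : ∀ i, 0 ≤ P i) (hQ : ∀ i, 0 ≤ Q i) (he : ∀ i, 0 ≤ e i)
    (h : ∀ i, Q i ^ α ≤ e i * P i ^ (α - 1)) {q en F : ℝ} (hF : F = ∑ i, P i)
    (hen : ∑ i, e i ≤ en) (hq : q ≤ ∑ i, Q i) :
    0 ≤ F + γ * en - (1 + γ) * q ∧ ∀ η : ℝ, 0 < η → η ≤ 1 →
      |F - q| ≤ η * q + (2 + 1 / ((α - 1) * η)) * (F + γ * en - (1 + γ) * q) := by
  have hs : 0 < α - 1 := by linarith
  have hγ0 : 0 < γ := by rw [hγ]; positivity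
  have b := fun i => bracket hα hγ (hP i) (hQ i) (he i) (h i)
  have hD : ∑ i, (P i + γ * e i - (1 + γ) * Q i) = F + γ * ∑ i, e i - (1 + γ) * ∑ i, Q i := by
    rw [hF, Finset.mul_sum, Finset.mul_sum, ← Finset.sum_add_distrib, ← Finset.sum_sub_distrib]
  have hD0 : 0 ≤ ∑ i, (P i + γ * e i - (1 + γ) * Q i) := Finset.sum_nonneg fun i _ => (b i).1
  have h1 : γ * ∑ i, e i ≤ γ * en := mul_le_mul_of_nonneg_left hen hγ0.le
  set sQ := ∑ i, Q i with hsQ
  have h2 : 0 ≤ γ * (sQ - q) := mul_nonneg hγ0.le (by linarith)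
  refine ⟨by nlinarith, fun η hη hη1 => ?_⟩
  have h3 : |F - sQ| ≤ η * sQ + (2 + 1 / ((α - 1) * η)) *
      ∑ i, (P i + γ * e i - (1 + γ) * Q i) := by
    calc |F - sQ| = |∑ i, (P i - Q i)| := by rw [Finset.sum_sub_distrib, hF]
      _ ≤ ∑ i, |P i - Q i| := Finset.abs_sum_le_sum_abs _ _
      _ ≤ ∑ i, (η * Q i + (2 + 1 / ((α - 1) * η)) * (P i + γ * e i - (1 + γ) * Q i)) :=
          Finset.sum_le_sum fun i _ => (b i).2 η hη
      _ = _ := by rw [Finset.sum_add_distrib, ← Finset.mul_sum, ← Finset.mul_sum]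
  have h4 : |F - q| ≤ |F - sQ| + (sQ - q) := by
    calc |F - q| = |(F - sQ) + (sQ - q)| := by ring_nf
      _ ≤ |F - sQ| + |sQ - q| := abs_add_le _ _
      _ = _ := by rw [abs_of_nonneg (by linarith : 0 ≤ sQ - q)]
  have hc : 0 < 1 / ((α - 1) * η) := by positivity
  have h5 : ∑ i, (P i + γ * e i - (1 + γ) * Q i) + (sQ - q) ≤ F + γ * en - (1 + γ) * q := by
    rw [hD]; nlinarith
  have h6 : η * (sQ - q) ≤ sQ - q := by nlinarith
  have h7 : (2 + 1 / ((α - 1) * η)) * (∑ i, (P i + γ * e i - (1 + γ) * Q i) + (sQ - q)) ≤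
      (2 + 1 / ((α - 1) * η)) * (F + γ * en - (1 + γ) * q) :=
    mul_le_mul_of_nonneg_left h5 (by positivity)
  have h8 : 0 ≤ 1 / ((α - 1) * η) * (sQ - q) := mul_nonneg hc.le (by linarith)
  nlinarith

section sched

variable {ι : Type} {r w : ι → ℝ} (σ : Schedule r w) {α : ℝ}

/-- work processed during `K` -/
noncomputable def Schedule.wk (K : Set ℝ) : ENNReal := ∫⁻ x in K, ENNReal.ofReal (σ.speed x)
/-- energy used during `K` -/
noncomputable def Schedule.en (α : ℝ) (K : Set ℝ) : ENNReal :=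
  ∫⁻ x in K, ENNReal.ofReal (σ.speed x ^ α)

/-- times when `i` or `j` is processed -/
def Schedule.act (i j : ι) : Set ℝ := {x | σ.job x = some i ∨ σ.job x = some j}

theorem Schedule.meas_act (i j : ι) : MeasurableSet (σ.act i j) :=
  (σ.measurableSet_job i).union (σ.measurableSet_job j)

/-- processing set of a job -/
def Schedule.pr (i : ι) : Set ℝ := {x : ℝ | 0 ≤ x ∧ x ≤ σ.compl i ∧ σ.job x = some i}

theorem Schedule.meas_pr (i : ι) : MeasurableSet (σ.pr i) := by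
  have h1 : σ.pr i = Icc 0 (σ.compl i) ∩ {x | σ.job x = some i} := by
    ext x; simp only [pr, mem_setOf_eq, mem_inter_iff, mem_Icc]; tauto
  rw [h1]
  exact measurableSet_Icc.inter (σ.measurableSet_job i)

theorem Schedule.wk_pr (i : ι) : ENNReal.ofReal (w i) ≤ σ.wk (σ.pr i) := (σ.isLeast_compl i).1.2

theorem Schedule.release_le_compl (i : ι) (hw : 0 < w i) : r i ≤ σ.compl i := by
  by_contra hlt
  push Not at hlt
  have h := σ.wk_pr i
  have e : σ.pr i = ∅ := by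
    ext x
    simp only [pr, mem_setOf_eq, mem_empty_iff_false, iff_false]
    rintro ⟨_, h2, h3⟩
    have := σ.released x i h3
    linarith
  rw [e, wk, setLIntegral_empty] at h
  exact absurd (ENNReal.ofReal_pos.2 hw) (not_lt.2 h)

theorem Schedule.compl_nonneg (i : ι) : 0 ≤ σ.compl i := (σ.isLeast_compl i).1.1

/-- the real data of a piece -/
theorem Schedule.piece (hα : 1 < α) {K : Set ℝ} {u v : ℝ} (huv : u ≤ v) (hK : K ⊆ Icc u v)
    (he : σ.en α K ≠ ⊤) : σ.wk K ≠ ⊤ ∧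
      (σ.wk K).toReal ^ α ≤ (σ.en α K).toReal * (v - u) ^ (α - 1) :=
  holder_piece hα σ.measurable_speed σ.speed_nonneg huv hK he

theorem two_piece {α y e len : ℝ} (hα : 1 < α) (hy : 0 ≤ y) (hlen : 0 ≤ len)
    (h : y ^ α ≤ e * len ^ (α - 1)) : (kp α * y) ^ α ≤ e * (2 * len) ^ (α - 1) := by
  rw [Real.mul_rpow (kp_pos α).le hy, kp_pow hα, Real.mul_rpow (by norm_num) hlen]
  have : (0 : ℝ) < 2 ^ (α - 1) := Real.rpow_pos_of_pos (by norm_num) _
  nlinarith [mul_le_mul_of_nonneg_left h this.le]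

/-- data of the two modes -/
noncomputable def qm (α a : ℝ) (m : Bool) : ℝ := if m then a * (2 * kp α + 1) else a * (2 + kp α)
noncomputable def sh (a ρ : ℝ) (m : Bool) : ℝ := if m then a * ρ else 0

theorem one_lt_kp {α : ℝ} (hα : 1 < α) : 1 < kp α :=
  Real.one_lt_rpow (by norm_num) (div_pos (by linarith) (by linarith))

/-- **Gadget lower bound.** -/
theorem Schedule.gadget (hα : 1 < α) {γ : ℝ} (hγ : γ = 1 / (α - 1)) {i j : ι} (hij : i ≠ j)
    {R a ρ : ℝ} (hR : 0 ≤ R) (ha : 0 < a) (hρ : 0 < ρ) (hri : r i = R) (hwi : w i = a * 2)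
    (hrj : r j = R + a * ρ) (hwj : w j = a)
    (hfin : σ.en α ({x | 0 ≤ x} ∩ σ.act i j) ≠ ⊤) :
    ∃ m : Bool,
      0 ≤ (σ.compl i - r i) + (σ.compl j - r j) + sh a ρ m +
        γ * (σ.en α ({x | 0 ≤ x} ∩ σ.act i j)).toReal - (1 + γ) * qm α a m ∧
      ∀ η : ℝ, 0 < η → η ≤ 1 →
        |(σ.compl i - r i) + (σ.compl j - r j) + sh a ρ m - qm α a m| ≤
          η * qm α a m + (2 + 1 / ((α - 1) * η)) *
            ((σ.compl i - r i) + (σ.compl j - r j) + sh a ρ m +
              γ * (σ.en α ({x | 0 ≤ x} ∩ σ.act i j)).toReal - (1 + γ) * qm α a m) := by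
  have hk := one_lt_kp hα
  have haρ : 0 < a * ρ := mul_pos ha hρ
  set Ci := σ.compl i with hCi
  set Cj := σ.compl j with hCj
  have hRi : R ≤ Ci := hri ▸ σ.release_le_compl i (by rw [hwi]; positivity)
  have hRj : R + a * ρ ≤ Cj := hrj ▸ σ.release_le_compl j (by rw [hwj]; positivity)
  have hAct := σ.meas_act i j
  have hwki : ENNReal.ofReal (a * 2) ≤ σ.wk (σ.pr i) := hwi ▸ σ.wk_pr i
  have hwkj : ENNReal.ofReal a ≤ σ.wk (σ.pr j) := hwj ▸ σ.wk_pr j
  have hdisj : Disjoint (σ.pr i) (σ.pr j) := by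
    rw [Set.disjoint_left]
    rintro x ⟨_, _, h1⟩ ⟨_, _, h2⟩
    rw [h1] at h2
    exact hij (Option.some_injective _ h2)
  have hsum : ENNReal.ofReal (a * 3) ≤ σ.wk (σ.pr i ∪ σ.pr j) := by
    have e : σ.wk (σ.pr i ∪ σ.pr j) = σ.wk (σ.pr i) + σ.wk (σ.pr j) :=
      lintegral_union (σ.meas_pr j) hdisj
    rw [e, show a * 3 = a * 2 + a by ring, ENNReal.ofReal_add (by positivity) ha.le]
    exact add_le_add hwki hwkj
  have hpri : σ.pr i ⊆ σ.act i j ∩ Icc R Ci := by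
    rintro x ⟨h1, h2, h3⟩
    exact ⟨Or.inl h3, hri ▸ σ.released x i h3, h2⟩
  have hprj : σ.pr j ⊆ σ.act i j ∩ Icc (R + a * ρ) Cj := by
    rintro x ⟨h1, h2, h3⟩
    exact ⟨Or.inr h3, hrj ▸ σ.released x j h3, h2⟩
  have hmono : ∀ K : Set ℝ, K ⊆ {x | 0 ≤ x} ∩ σ.act i j → σ.en α K ≠ ⊤ := fun K hK =>
    ne_top_of_le_ne_top hfin (lintegral_mono_set hK)
  set en := σ.en α ({x | 0 ≤ x} ∩ σ.act i j) with hen
  rcases le_or_gt Ci Cj with hcase | hcase
  · -- mode A
    refine ⟨true, ?_⟩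
    let K1 : Set ℝ := σ.act i j ∩ Icc R Ci
    let K2 : Set ℝ := σ.act i j ∩ Ioc Ci Cj
    have hK1 : K1 ⊆ {x | 0 ≤ x} ∩ σ.act i j := fun x hx => ⟨hR.trans hx.2.1, hx.1⟩
    have hK2 : K2 ⊆ {x | 0 ≤ x} ∩ σ.act i j := fun x hx =>
      ⟨(hR.trans hRi).trans hx.2.1.le, hx.1⟩
    have hK12 : Disjoint K1 K2 := by
      rw [Set.disjoint_left]; intro x h1 h2; exact absurd h1.2.2 (not_le.2 h2.2.1)
    have hm2 : MeasurableSet K2 := hAct.inter measurableSet_Ioc
    obtain ⟨t1, p1⟩ := σ.piece hα hRi inter_subset_right (hmono K1 hK1)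
    obtain ⟨t2, p2⟩ := σ.piece hα hcase (fun x hx => ⟨hx.2.1.le, hx.2.2⟩ : K2 ⊆ Icc Ci Cj)
      (hmono K2 hK2)
    have hy1 : a * 2 ≤ (σ.wk K1).toReal := by
      rw [← ENNReal.ofReal_le_iff_le_toReal t1]
      exact hwki.trans (lintegral_mono_set hpri)
    have hy12 : a * 3 ≤ (σ.wk K1).toReal + (σ.wk K2).toReal := by
      rw [← ENNReal.toReal_add t1 t2, ← ENNReal.ofReal_le_iff_le_toReal (ENNReal.add_ne_top.2 ⟨t1, t2⟩)]
      have e : σ.wk (K1 ∪ K2) = σ.wk K1 + σ.wk K2 := lintegral_union hm2 hK12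
      rw [← e]
      refine hsum.trans (lintegral_mono_set ?_)
      rintro x (hx | hx)
      · exact Or.inl (hpri hx)
      · have := hprj hx
        rcases le_or_gt x Ci with h | h
        · exact Or.inl ⟨this.1, by linarith [this.2.1], h⟩
        · exact Or.inr ⟨this.1, h, this.2.2⟩
    have hen12 : (σ.en α K1).toReal + (σ.en α K2).toReal ≤ en.toReal := by
      rw [← ENNReal.toReal_add (hmono K1 hK1) (hmono K2 hK2)]
      refine ENNReal.toReal_mono hfin ?_
      have e : σ.en α (K1 ∪ K2) = σ.en α K1 + σ.en α K2 := lintegral_union hm2 hK12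
      rw [← e]
      exact lintegral_mono_set (union_subset hK1 hK2)
    have hy2 : 0 ≤ (σ.wk K2).toReal := ENNReal.toReal_nonneg
    have e1 : 0 ≤ (σ.en α K1).toReal := ENNReal.toReal_nonneg
    have e2 : 0 ≤ (σ.en α K2).toReal := ENNReal.toReal_nonneg
    have := three_pieces hα hγ (P := ![2 * (Ci - R), Cj - Ci, 0])
      (Q := ![kp α * (σ.wk K1).toReal, (σ.wk K2).toReal, 0])
      (e := ![(σ.en α K1).toReal, (σ.en α K2).toReal, 0])
      (by intro i; fin_cases i <;> simp <;> linarith)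
      (by intro i; fin_cases i <;> simp <;> nlinarith)
      (by intro i; fin_cases i <;> simp)
      (by
        intro i; fin_cases i
        · exact two_piece hα ENNReal.toReal_nonneg (by linarith) p1
        · exact p2
        · simp; rw [Real.zero_rpow (by linarith)])
      (q := qm α a true) (en := en.toReal)
      (F := (Ci - r i) + (Cj - r j) + sh a ρ true)
      (by rw [hri, hrj]; simp [Fin.sum_univ_three, sh]; ring)
      (by simpa [Fin.sum_univ_three] using hen12)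
      (by simp only [Fin.sum_univ_three, qm]; simp; nlinarith)
    exact this
  · -- mode B
    refine ⟨false, ?_⟩
    let K1 : Set ℝ := σ.act i j ∩ Ico R (R + a * ρ)
    let K2 : Set ℝ := σ.act i j ∩ Icc (R + a * ρ) Cj
    let K3 : Set ℝ := σ.act i j ∩ Ioc Cj Ci
    have hK1 : K1 ⊆ {x | 0 ≤ x} ∩ σ.act i j := fun x hx => ⟨hR.trans hx.2.1, hx.1⟩
    have hK2 : K2 ⊆ {x | 0 ≤ x} ∩ σ.act i j := fun x hx => ⟨by
      show 0 ≤ x; linarith [hx.2.1], hx.1⟩
    have hK3 : K3 ⊆ {x | 0 ≤ x} ∩ σ.act i j := fun x hx => ⟨by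
      show 0 ≤ x; linarith [hx.2.1], hx.1⟩
    have hK12 : Disjoint K1 K2 := by
      rw [Set.disjoint_left]; intro x h1 h2; exact absurd h1.2.2 (not_lt.2 h2.2.1)
    have hK123 : Disjoint (K1 ∪ K2) K3 := by
      rw [Set.disjoint_left]; rintro x (h1 | h1) h2
      · have := h1.2.2; have := h2.2.1; linarith
      · exact absurd h1.2.2 (not_le.2 h2.2.1)
    have hm2 : MeasurableSet K2 := hAct.inter measurableSet_Icc
    have hm3 : MeasurableSet K3 := hAct.inter measurableSet_Ioc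
    obtain ⟨t1, p1⟩ := σ.piece hα (by linarith : R ≤ R + a * ρ)
      (fun x hx => ⟨hx.2.1, hx.2.2.le⟩ : K1 ⊆ Icc R (R + a * ρ)) (hmono K1 hK1)
    obtain ⟨t2, p2⟩ := σ.piece hα hRj inter_subset_right (hmono K2 hK2)
    obtain ⟨t3, p3⟩ := σ.piece hα hcase.le (fun x hx => ⟨hx.2.1.le, hx.2.2⟩ : K3 ⊆ Icc Cj Ci)
      (hmono K3 hK3)
    have hy2 : a ≤ (σ.wk K2).toReal := by
      rw [← ENNReal.ofReal_le_iff_le_toReal t2]
      exact hwkj.trans (lintegral_mono_set hprj)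
    have hy123 : a * 3 ≤ (σ.wk K1).toReal + (σ.wk K2).toReal + (σ.wk K3).toReal := by
      rw [← ENNReal.toReal_add t1 t2, ← ENNReal.toReal_add (ENNReal.add_ne_top.2 ⟨t1, t2⟩) t3,
        ← ENNReal.ofReal_le_iff_le_toReal
          (ENNReal.add_ne_top.2 ⟨ENNReal.add_ne_top.2 ⟨t1, t2⟩, t3⟩)]
      have e : σ.wk (K1 ∪ K2) = σ.wk K1 + σ.wk K2 := lintegral_union hm2 hK12
      have e' : σ.wk (K1 ∪ K2 ∪ K3) = σ.wk (K1 ∪ K2) + σ.wk K3 := lintegral_union hm3 hK123
      rw [← e, ← e']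
      refine hsum.trans (lintegral_mono_set ?_)
      rintro x (hx | hx)
      · have := hpri hx
        rcases lt_or_ge x (R + a * ρ) with h | h
        · exact Or.inl (Or.inl ⟨this.1, this.2.1, h⟩)
        · rcases le_or_gt x Cj with h' | h'
          · exact Or.inl (Or.inr ⟨this.1, h, h'⟩)
          · exact Or.inr ⟨this.1, h', this.2.2⟩
      · exact Or.inl (Or.inr (hprj hx))
    have hen123 : (σ.en α K1).toReal + (σ.en α K2).toReal + (σ.en α K3).toReal ≤ en.toReal := by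
      have f1 := hmono K1 hK1
      have f2 := hmono K2 hK2
      have f3 := hmono K3 hK3
      rw [← ENNReal.toReal_add f1 f2, ← ENNReal.toReal_add (ENNReal.add_ne_top.2 ⟨f1, f2⟩) f3]
      refine ENNReal.toReal_mono hfin ?_
      have e : σ.en α (K1 ∪ K2) = σ.en α K1 + σ.en α K2 := lintegral_union hm2 hK12
      have e' : σ.en α (K1 ∪ K2 ∪ K3) = σ.en α (K1 ∪ K2) + σ.en α K3 := lintegral_union hm3 hK123
      rw [← e, ← e']
      exact lintegral_mono_set (union_subset (union_subset hK1 hK2) hK3)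
    have y1 : 0 ≤ (σ.wk K1).toReal := ENNReal.toReal_nonneg
    have y3 : 0 ≤ (σ.wk K3).toReal := ENNReal.toReal_nonneg
    have := three_pieces hα hγ (P := ![a * ρ, 2 * (Cj - (R + a * ρ)), Ci - Cj])
      (Q := ![(σ.wk K1).toReal, kp α * (σ.wk K2).toReal, (σ.wk K3).toReal])
      (e := ![(σ.en α K1).toReal, (σ.en α K2).toReal, (σ.en α K3).toReal])
      (by intro i; fin_cases i <;> simp <;> linarith)
      (by intro i; fin_cases i <;> simp; nlinarith)
      (by intro i; fin_cases i <;> simp)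
      (by
        intro i; fin_cases i
        · simpa using p1
        · exact two_piece hα ENNReal.toReal_nonneg (by linarith) p2
        · exact p3)
      (q := qm α a false) (en := en.toReal)
      (F := (Ci - r i) + (Cj - r j) + sh a ρ false)
      (by rw [hri, hrj]; simp [Fin.sum_univ_three, sh]; ring)
      (by simpa [Fin.sum_univ_three] using hen123)
      (by simp only [Fin.sum_univ_three, qm]; simp; nlinarith)
    exact this

end sched

end Pool.Agent.Helper82.Speed
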