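import Mathlib
import Pool.Agent.Helper82.Speed.Gadget

set_option autoImplicit false

namespace Pool.Agent.Helper82.Speed

open MeasureTheory Set

theorem kp_lt_two {α : ℝ} (hα : 1 < α) : kp α < 2 := by
  have h : (α - 1) / α < 1 := by rw [div_lt_one (by linarith)]; linarith
  calc kp α < (2 : ℝ) ^ (1 : ℝ) := Real.rpow_lt_rpow_of_exponent_lt (by norm_num) h
    _ = 2 := Real.rpow_one 2

/-- total weight of the gadgets in mode A -/
noncomputable def sA {n : ℕ} (a : Fin n → ℝ) (m : Fin n → Bool) : ℝ :=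
  ∑ k, if m k then a k else 0

theorem lower_main {α γ : ℝ} (hα : 1 < α) (hγ : γ = 1 / (α - 1)) {n : ℕ} {a R : Fin n → ℝ}
    {ρ E : ℝ} (ha : ∀ k, 0 < a k) (hR : ∀ k, 0 ≤ R k) (hρ : 0 < ρ) (hE : 0 ≤ E)
    {r w : Fin n × Fin 2 → ℝ}
    (hr0 : ∀ k, r (k, 0) = R k) (hw0 : ∀ k, w (k, 0) = a k * 2)
    (hr1 : ∀ k, r (k, 1) = R k + a k * ρ) (hw1 : ∀ k, w (k, 1) = a k)
    (σ : Schedule r w) (hσ : σ.energy α ≤ ENNReal.ofReal E) :
    ∃ m : Fin n → Bool, 0 ≤ σ.flow + sA a m * ρ + γ * E -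
          (1 + γ) * (sA a m * (kp α - 1) + (∑ k, a k) * (2 + kp α)) ∧
      ∀ η : ℝ, 0 < η → η ≤ 1 →
      |σ.flow + sA a m * ρ - (sA a m * (kp α - 1) + (∑ k, a k) * (2 + kp α))| ≤
        η * (5 * ∑ k, a k) + (2 + 1 / ((α - 1) * η)) * (σ.flow + sA a m * ρ + γ * E -
          (1 + γ) * (sA a m * (kp α - 1) + (∑ k, a k) * (2 + kp α))) := by
  have hk := one_lt_kp hα
  have hk2 := kp_lt_two hα
  have hs : 0 < α - 1 := by linarith
  have hγ0 : 0 < γ := by rw [hγ]; positivity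
  have hfinE : σ.energy α ≠ ⊤ := ne_top_of_le_ne_top ENNReal.ofReal_ne_top hσ
  let A : Fin n → Set ℝ := fun k => {x | 0 ≤ x} ∩ σ.act (k, 0) (k, 1)
  have hAm : ∀ k, MeasurableSet (A k) := fun k => measurableSet_Ici.inter (σ.meas_act _ _)
  have hfin : ∀ k, σ.en α (A k) ≠ ⊤ := fun k =>
    ne_top_of_le_ne_top hfinE (lintegral_mono_set inter_subset_left)
  have hg := fun k => σ.gadget hα hγ (i := (k, 0)) (j := (k, 1)) (by simp) (hR k) (ha k) hρ
    (hr0 k) (hw0 k) (hr1 k) (hw1 k) (hfin k)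
  choose m hm0 hm using hg
  -- total energy
  have hAd : Pairwise (Function.onFun Disjoint A) := by
    intro k l hkl
    rw [Function.onFun, Set.disjoint_left]
    rintro x ⟨_, h1⟩ ⟨_, h2⟩
    rcases h1 with h1 | h1 <;> rcases h2 with h2 | h2 <;> rw [h1] at h2 <;>
      exact hkl (congrArg Prod.fst (Option.some_injective _ h2))
  have hen : ∑ k, (σ.en α (A k)).toReal ≤ E := by
    rw [← ENNReal.toReal_sum fun k _ => hfin k]
    refine ENNReal.toReal_le_of_le_ofReal hE (le_trans ?_ hσ)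
    have e : σ.en α (⋃ k, A k) = ∑' k, σ.en α (A k) := lintegral_iUnion hAm hAd _
    rw [tsum_fintype] at e
    rw [← e]
    exact lintegral_mono_set (iUnion_subset fun k => inter_subset_left)
  have hflow : σ.flow = ∑ k, ((σ.compl (k, 0) - r (k, 0)) + (σ.compl (k, 1) - r (k, 1))) := by
    unfold Schedule.flow
    rw [Fintype.sum_prod_type]
    exact Finset.sum_congr rfl fun k _ => Fin.sum_univ_two _
  have hsh : ∑ k, sh (a k) ρ (m k) = sA a m * ρ := by
    unfold sA; rw [Finset.sum_mul]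
    refine Finset.sum_congr rfl fun k _ => ?_
    unfold sh; split_ifs <;> simp
  have hq : ∑ k, qm α (a k) (m k) = sA a m * (kp α - 1) + (∑ k, a k) * (2 + kp α) := by
    unfold sA; rw [Finset.sum_mul, Finset.sum_mul, ← Finset.sum_add_distrib]
    refine Finset.sum_congr rfl fun k _ => ?_
    unfold qm; split_ifs <;> ring
  have hq5 : ∑ k, qm α (a k) (m k) ≤ 5 * ∑ k, a k := by
    rw [Finset.mul_sum]
    refine Finset.sum_le_sum fun k _ => ?_
    have := ha k
    unfold qm; split_ifs <;> nlinarith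
  set f := fun k => (σ.compl (k, 0) - r (k, 0)) + (σ.compl (k, 1) - r (k, 1)) + sh (a k) ρ (m k)
    with hf
  have hX : ∑ k, f k = σ.flow + sA a m * ρ := by
    rw [hf, Finset.sum_add_distrib, ← hflow, hsh]
  set en := fun k => (σ.en α (A k)).toReal with hen'
  have hD : ∑ k, (f k + γ * en k - (1 + γ) * qm α (a k) (m k)) =
      (σ.flow + sA a m * ρ) + γ * ∑ k, en k -
        (1 + γ) * (sA a m * (kp α - 1) + (∑ k, a k) * (2 + kp α)) := by
    rw [Finset.sum_sub_distrib, Finset.sum_add_distrib, ← Finset.mul_sum, ← Finset.mul_sum, hX, hq]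
  have hγE : γ * ∑ k, en k ≤ γ * E := mul_le_mul_of_nonneg_left hen hγ0.le
  have hD0 : 0 ≤ ∑ k, (f k + γ * en k - (1 + γ) * qm α (a k) (m k)) :=
    Finset.sum_nonneg fun k _ => hm0 k
  refine ⟨m, by rw [hD] at hD0; linarith, fun η hη hη1 => ?_⟩
  rw [← hX, ← hq, ← Finset.sum_sub_distrib]
  calc |∑ k, (f k - qm α (a k) (m k))| ≤ ∑ k, |f k - qm α (a k) (m k)| :=
        Finset.abs_sum_le_sum_abs _ _
    _ ≤ ∑ k, (η * qm α (a k) (m k) + (2 + 1 / ((α - 1) * η)) *
          (f k + γ * en k - (1 + γ) * qm α (a k) (m k))) :=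
        Finset.sum_le_sum fun k _ => hm k η hη hη1
    _ = η * ∑ k, qm α (a k) (m k) + (2 + 1 / ((α - 1) * η)) *
          ∑ k, (f k + γ * en k - (1 + γ) * qm α (a k) (m k)) := by
        rw [Finset.sum_add_distrib, ← Finset.mul_sum, ← Finset.mul_sum]
    _ ≤ η * (5 * ∑ k, a k) + (2 + 1 / ((α - 1) * η)) * (∑ k, f k + γ * E -
          (1 + γ) * ∑ k, qm α (a k) (m k)) := by
        have hc : 0 < 2 + 1 / ((α - 1) * η) := by positivity
        refine add_le_add (mul_le_mul_of_nonneg_left hq5 hη.le)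
          (mul_le_mul_of_nonneg_left ?_ hc.le)
        rw [hD, hX, hq]
        linarith
    _ = _ := by rw [hX]

/-- The arithmetic heart of the reduction. -/
theorem count {α γ : ℝ} (hα : 1 < α) (hγ : γ = 1 / (α - 1)) : ∃ c : ℝ, 0 < c ∧
    ∀ (S : ℝ) (δ ε k ρ F SA : ℝ), 1 ≤ S → 0 ≤ δ → 0 ≤ ε → S ^ 2 * δ ≤ c → S * ε ≤ c →
    0 ≤ k - kp α → k - kp α ≤ δ → |ρ - (1 + γ) * (kp α - 1)| ≤ δ → 0 ≤ SA → SA ≤ S →
    F ≤ S / 2 * (3 * k + 3 - ρ) + ε →
    0 ≤ F + SA * ρ + γ * (S / 2 * (3 * k + 3)) -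
          (1 + γ) * (SA * (kp α - 1) + S * (2 + kp α)) →
    (∀ η : ℝ, 0 < η → η ≤ 1 →
      |F + SA * ρ - (SA * (kp α - 1) + S * (2 + kp α))| ≤
        η * (5 * S) + (2 + 1 / ((α - 1) * η)) * (F + SA * ρ + γ * (S / 2 * (3 * k + 3)) -
          (1 + γ) * (SA * (kp α - 1) + S * (2 + kp α)))) →
    |SA - S / 2| < 1 / 2 := by
  have hk := one_lt_kp hα
  have hs : 0 < α - 1 := by linarith
  have hγ0 : 0 < γ := by rw [hγ]; positivity
  set c0 := kp α - 1 with hc0
  have hc0p : 0 < c0 := by linarith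
  set M := γ * c0 / 4 with hM
  have hMp : 0 < M := by positivity
  set c2 := min 1 (M / 20) with hc2
  have hc2p : 0 < c2 := lt_min one_pos (by positivity)
  have hc21 : c2 ≤ 1 := min_le_left _ _
  have hc22 : 5 * c2 ≤ M / 4 := by have := min_le_right 1 (M / 20); linarith
  set C1 := 3 * (1 + γ) + 2 with hC1
  have hC1p : 0 < C1 := by positivity
  set D := 2 + 1 / ((α - 1) * c2) with hD
  have hDp : 0 < D := by positivity
  set c := min (M / (8 * D * C1)) (M / (8 * C1)) with hc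
  have hcp : 0 < c := lt_min (by positivity) (by positivity)
  refine ⟨c, hcp, ?_⟩
  intro S δ ε k ρ F SA hS hδ hε hSδ hSε hk0 hkδ hρδ hSA0 hSAS hF hΔ0 hη
  have hS0 : 0 < S := by linarith
  have hη0 := hη (c2 / S) (by positivity) (by rw [div_le_one hS0]; linarith)
  set Δ := F + SA * ρ + γ * (S / 2 * (3 * k + 3)) -
          (1 + γ) * (SA * (kp α - 1) + S * (2 + kp α)) with hΔ
  have hρ1 := abs_le.1 hρδ
  -- bound on Δ
  have hSAT : |SA - S / 2| ≤ S / 2 := by rw [abs_le]; constructor <;> linarith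
  have hΔ1 : Δ ≤ 3 * (S / 2) * (1 + γ) * (k - kp α) + S / 2 * δ + ε := by
    have e : Δ = (F - (S / 2 * (3 * k + 3 - ρ))) + 3 * (S / 2) * (1 + γ) * (k - kp α) +
        (SA - S / 2) * (ρ - (1 + γ) * (kp α - 1)) := by rw [hΔ]; ring
    have h1 : (SA - S / 2) * (ρ - (1 + γ) * (kp α - 1)) ≤ S / 2 * δ := by
      calc _ ≤ |(SA - S / 2) * (ρ - (1 + γ) * (kp α - 1))| := le_abs_self _
        _ = |SA - S / 2| * |ρ - (1 + γ) * (kp α - 1)| := abs_mul _ _
        _ ≤ S / 2 * δ := mul_le_mul hSAT hρδ (abs_nonneg _) (by linarith)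
    rw [e]; linarith
  have hSΔ : S * Δ ≤ C1 * c := by
    have h2 : S * Δ ≤ S * (3 * (S / 2) * (1 + γ) * δ + S / 2 * δ + ε) := by
      refine mul_le_mul_of_nonneg_left (hΔ1.trans ?_) hS0.le
      have : 3 * (S / 2) * (1 + γ) * (k - kp α) ≤ 3 * (S / 2) * (1 + γ) * δ :=
        mul_le_mul_of_nonneg_left hkδ (by positivity)
      linarith
    have h3 : S * (3 * (S / 2) * (1 + γ) * δ + S / 2 * δ + ε) =
        (3 / 2 * (1 + γ) + 1 / 2) * (S ^ 2 * δ) + S * ε := by ring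
    have h4 : (3 / 2 * (1 + γ) + 1 / 2) * (S ^ 2 * δ) ≤ (3 / 2 * (1 + γ) + 1 / 2) * c :=
      mul_le_mul_of_nonneg_left hSδ (by positivity)
    rw [h3] at h2
    rw [hC1]
    have h5 : 0 ≤ (3 / 2 * (1 + γ) + 1 / 2) * c := by positivity
    have h6 : (3 * (1 + γ) + 2) * c = 2 * ((3 / 2 * (1 + γ) + 1 / 2) * c) + c := by ring
    linarith
  have hDC : D * (C1 * c) ≤ M / 8 := by
    have : c ≤ M / (8 * D * C1) := min_le_left _ _
    calc D * (C1 * c) ≤ D * (C1 * (M / (8 * D * C1))) :=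
          mul_le_mul_of_nonneg_left (mul_le_mul_of_nonneg_left this hC1p.le) hDp.le
      _ = M / 8 := by field_simp
  have hC1c : C1 * c ≤ M / 8 := by
    have : c ≤ M / (8 * C1) := min_le_right _ _
    calc C1 * c ≤ C1 * (M / (8 * C1)) := mul_le_mul_of_nonneg_left this hC1p.le
      _ = M / 8 := by field_simp
  -- the error term
  set err := c2 / S * (5 * S) + (2 + 1 / ((α - 1) * (c2 / S))) * Δ with herr
  have habs := abs_le.1 hη0
  have herr0 : 0 ≤ err := le_trans (abs_nonneg _) hη0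
  have herr1 : err ≤ M / 4 + M / 8 := by
    have e1 : c2 / S * (5 * S) = 5 * c2 := by field_simp
    have e2 : (2 + 1 / ((α - 1) * (c2 / S))) * Δ = (2 / S + 1 / ((α - 1) * c2)) * (S * Δ) := by
      field_simp
    rw [herr, e1, e2]
    have h6 : 2 / S + 1 / ((α - 1) * c2) ≤ D := by
      have : 2 / S ≤ 2 := by rw [div_le_iff₀ hS0]; linarith
      rw [hD]; linarith
    have h5 : (2 / S + 1 / ((α - 1) * c2)) * (S * Δ) ≤ D * (C1 * c) :=
      mul_le_mul h6 hSΔ (mul_nonneg hS0.le hΔ0) hDp.le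
    linarith
  have hsmall : 3 * (S / 2) * (1 + γ) * δ + ε ≤ M / 8 := by
    have h1 : S * δ ≤ c := by
      have : S * δ ≤ S ^ 2 * δ := by
        rw [pow_two, mul_assoc]
        exact le_mul_of_one_le_left (mul_nonneg hS0.le hδ) hS
      linarith
    have h2 : ε ≤ c := (le_mul_of_one_le_left hε hS).trans hSε
    have h3 : 3 * (S / 2) * (1 + γ) * δ + ε ≤ C1 * c := by
      have h7 : 3 * (S / 2) * (1 + γ) * δ = 3 / 2 * (1 + γ) * (S * δ) := by ring
      rw [h7, hC1]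
      have h8 : 3 / 2 * (1 + γ) * (S * δ) ≤ 3 / 2 * (1 + γ) * c :=
        mul_le_mul_of_nonneg_left h1 (by positivity)
      have h9 : 0 ≤ (1 + γ) * c := by positivity
      have h10 : (3 * (1 + γ) + 2) * c = 3 / 2 * (1 + γ) * c + c + (3 / 2 * ((1 + γ) * c) + c) := by
        ring
      linarith
    linarith
  have hS2k : 3 * (S / 2) * (k - kp α) ≤ 3 * (S / 2) * δ :=
    mul_le_mul_of_nonneg_left hkδ (by positivity)
  have hS2δ : 0 ≤ 3 * (S / 2) * δ := by positivity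
  rw [abs_lt]
  constructor
  · -- flow side
    by_contra hcon
    push Not at hcon
    have hT : 1 / 2 ≤ S / 2 - SA := by linarith
    -- (T - SA)(ρ - c0) ≤ 3T(k-kp) + ε + err
    have h1 : (S / 2 - SA) * (ρ - c0) ≤ 3 * (S / 2) * (k - kp α) + ε + err := by
      have h2 := habs.1
      have e : F + SA * ρ - (SA * c0 + S * (2 + kp α)) =
        (F - S / 2 * (3 * k + 3 - ρ)) + 3 * (S / 2) * (k - kp α) - (S / 2 - SA) * (ρ - c0) := by
        rw [hc0]; ring
      rw [e] at h2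
      linarith
    have hδM : δ ≤ M / 8 := by
      have : δ ≤ 3 * (S / 2) * (1 + γ) * δ := by
        have hSg : 0 ≤ S * γ := by positivity
        have e5 : 3 * (S / 2) * (1 + γ) = 3 / 2 * S + 3 / 2 * (S * γ) := by ring
        exact le_mul_of_one_le_left hδ (by rw [e5]; linarith)
      linarith
    have h3 : γ * c0 - δ ≤ ρ - c0 := by
      have := hρ1.1
      have e : (1 + γ) * (kp α - 1) = c0 + γ * c0 := by rw [hc0]; ring
      rw [e] at this; linarith
    have h4 : 1 / 2 * (γ * c0 - δ) ≤ (S / 2 - SA) * (ρ - c0) := by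
      refine mul_le_mul hT h3 ?_ (by linarith)
      rw [show γ * c0 = 4 * M by rw [hM]; ring]; linarith
    have h5 : γ * c0 = 4 * M := by rw [hM]; ring
    have h6 : 3 * (S / 2) * δ ≤ 3 * (S / 2) * (1 + γ) * δ := by
      have hSg : 0 ≤ 3 * (S / 2) * γ * δ := by positivity
      have e5 : 3 * (S / 2) * (1 + γ) * δ = 3 * (S / 2) * δ + 3 * (S / 2) * γ * δ := by ring
      linarith
    linarith
  · -- energy side
    by_contra hcon
    push Not at hcon
    have h2 := habs.2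
    -- γ q ≤ γ E + err
    have h1 : γ * ((SA - S / 2) * c0) ≤ 3 * (S / 2) * γ * (k - kp α) + err := by
      have e : F + SA * ρ - (SA * c0 + S * (2 + kp α)) = Δ -
          (γ * (S / 2 * (3 * k + 3)) - γ * (SA * c0 + S * (2 + kp α))) := by
        rw [hΔ, hc0]; ring
      rw [e] at h2
      have e2 : γ * (S / 2 * (3 * k + 3)) - γ * (SA * c0 + S * (2 + kp α)) =
          3 * (S / 2) * γ * (k - kp α) - γ * ((SA - S / 2) * c0) := by rw [hc0]; ring
      rw [e2] at h2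
      linarith
    have h3 : γ * (1 / 2 * c0) ≤ γ * ((SA - S / 2) * c0) :=
      mul_le_mul_of_nonneg_left (mul_le_mul_of_nonneg_right hcon hc0p.le) hγ0.le
    have h4 : γ * c0 = 4 * M := by rw [hM]; ring
    have h5 : 3 * (S / 2) * γ * (k - kp α) ≤ 3 * (S / 2) * (1 + γ) * δ := by
      calc 3 * (S / 2) * γ * (k - kp α) ≤ 3 * (S / 2) * γ * δ :=
            mul_le_mul_of_nonneg_left hkδ (by positivity)
        _ ≤ 3 * (S / 2) * (1 + γ) * δ := by
          have e5 : 3 * (S / 2) * (1 + γ) * δ = 3 * (S / 2) * δ + 3 * (S / 2) * γ * δ := by ring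
          linarith
    have h6 : γ * (1 / 2 * c0) = 2 * M := by rw [hM]; ring
    linarith

end Pool.Agent.Helper82.Speed
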