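import Mathlib
import Pool.Agent.Helper82.Speed.Lower
import Pool.Agent.Helper82.Speed.Build

set_option autoImplicit false

namespace Pool.Agent.Helper82.Speed

open MeasureTheory Set

/-- `2 ^ (1 / α)` -/
noncomputable def ka (α : ℝ) : ℝ := 2 ^ (1 / α)

theorem ka_pos (α : ℝ) : 0 < ka α := Real.rpow_pos_of_pos (by norm_num) _

theorem ka_mul_kp {α : ℝ} (hα : 1 < α) : ka α * kp α = 2 := by
  unfold ka kp
  rw [← Real.rpow_add (by norm_num)]
  have : 1 / α + (α - 1) / α = 1 := by field_simp; ring
  rw [this, Real.rpow_one]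

theorem ka_pow {α : ℝ} (hα : 1 < α) : ka α ^ α = 2 := by
  unfold ka
  rw [← Real.rpow_mul (by norm_num)]
  have : 1 / α * α = 1 := by field_simp
  rw [this, Real.rpow_one]

section upper

variable {n : ℕ} (α : ℝ) (a R : Fin n → ℝ) (ρ : ℝ) (m : Fin n → Bool)

/-- boundaries of the pieces of gadget `k` -/
noncomputable def bnd (k : Fin n) : Fin 4 → ℝ :=
  if m k then ![R k, R k + a k * kp α, R k + a k * kp α + a k / 2, R k + a k * kp α + a k]
  else ![R k, R k + a k * ρ, R k + a k * ρ + a k * kp α / 2, R k + a k * kp α / 2 + a k * 2]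

noncomputable def plo (p : Fin n × Fin 3) : ℝ := bnd α a R ρ m p.1 p.2.castSucc
noncomputable def phi (p : Fin n × Fin 3) : ℝ := bnd α a R ρ m p.1 p.2.succ
noncomputable def psp (p : Fin n × Fin 3) : ℝ :=
  (if m p.1 then ![ka α, 1, 1] else ![1, ka α, 1]) p.2
def pjb (p : Fin n × Fin 3) : Fin n × Fin 2 :=
  (p.1, (if m p.1 then ![0, 1, 1] else ![0, 1, 0]) p.2)
noncomputable def pC (i : Fin n × Fin 2) : ℝ :=
  (if m i.1 then ![R i.1 + a i.1 * kp α, R i.1 + a i.1 * kp α + a i.1]
    else ![R i.1 + a i.1 * kp α / 2 + a i.1 * 2, R i.1 + a i.1 * ρ + a i.1 * kp α / 2]) i.2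

/-- **Upper bound**: the schedule with prescribed modes. -/
theorem upper_main (hα : 1 < α) (ha : ∀ k, 0 < a k) (hR : ∀ k, 0 ≤ R k)
    (hRR : ∀ k l, k < l → R k + 3 * a k ≤ R l) (hρ : 0 < ρ) (hρ2 : ρ ≤ kp α)
    {r w : Fin n × Fin 2 → ℝ}
    (hr0 : ∀ k, r (k, 0) = R k) (hw0 : ∀ k, w (k, 0) = a k * 2)
    (hr1 : ∀ k, r (k, 1) = R k + a k * ρ) (hw1 : ∀ k, w (k, 1) = a k) :
    ∃ σ : Schedule r w,
      σ.energy α = ENNReal.ofReal (sA a m * (kp α - 1) + (∑ k, a k) * (2 + kp α)) ∧
      σ.flow = sA a m * (kp α - 1 - ρ) + (∑ k, a k) * (2 + kp α) := by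
  have hk := one_lt_kp hα
  have hk2 := kp_lt_two hα
  have hka := ka_pos α
  have hkk := ka_mul_kp hα
  have hkp := ka_pow hα
  have hak : ∀ k, 0 < a k * kp α := fun k => mul_pos (ha k) (kp_pos α)
  have haρ : ∀ k, 0 < a k * ρ := fun k => mul_pos (ha k) hρ
  have haρk : ∀ k, a k * ρ ≤ a k * kp α := fun k => mul_le_mul_of_nonneg_left hρ2 (ha k).le
  have hak2 : ∀ k, a k * kp α < a k * 2 := fun k => mul_lt_mul_of_pos_left hk2 (ha k)
  have hlt : ∀ p, plo α a R ρ m p < phi α a R ρ m p := by
    rintro ⟨k, x⟩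
    have h1 := ha k; have h2 := hak k; have h3 := haρ k; have h4 := haρk k; have h5 := hak2 k
    unfold plo phi bnd
    by_cases hm : m k = true
    · simp only [hm, if_true]
      fin_cases x <;> simp <;> linarith
    · simp only [hm]
      fin_cases x <;> simp <;> linarith
  have hRlo : ∀ p, R p.1 ≤ plo α a R ρ m p := by
    rintro ⟨k, x⟩
    have h1 := ha k; have h2 := hak k; have h3 := haρ k; have h4 := haρk k; have h5 := hak2 k
    unfold plo bnd
    by_cases hm : m k = true
    · simp only [hm, if_true]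
      fin_cases x <;> simp <;> linarith
    · simp only [hm]
      fin_cases x <;> simp <;> linarith
  have hRhi : ∀ p, phi α a R ρ m p ≤ R p.1 + 3 * a p.1 := by
    rintro ⟨k, x⟩
    have h1 := ha k; have h2 := hak k; have h3 := haρ k; have h4 := haρk k; have h5 := hak2 k
    unfold phi bnd
    by_cases hm : m k = true
    · simp only [hm, if_true]
      fin_cases x <;> simp <;> linarith
    · simp only [hm]
      fin_cases x <;> simp <;> linarith
  have hsame : ∀ (k : Fin n) (x y : Fin 3), x < y → phi α a R ρ m (k, x) ≤ plo α a R ρ m (k, y) := by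
    intro k x y hxy
    have h1 := ha k; have h2 := hak k; have h3 := haρ k; have h4 := haρk k; have h5 := hak2 k
    unfold phi plo bnd
    by_cases hm : m k = true
    · simp only [hm, if_true]
      fin_cases x <;> fin_cases y <;> simp at hxy ⊢ <;> linarith
    · simp only [hm]
      fin_cases x <;> fin_cases y <;> simp at hxy ⊢ <;> linarith
  have hdis : ∀ {u v u' v' : ℝ}, v ≤ u' → Disjoint (Ico u v) (Ico u' v') := by
    intro u v u' v' h
    rw [Set.disjoint_left]
    intro x hx hx'
    linarith [hx.2, hx'.1]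
  have hd : ∀ p q : Fin n × Fin 3, p ≠ q → Disjoint (Ico (plo α a R ρ m p) (phi α a R ρ m p))
      (Ico (plo α a R ρ m q) (phi α a R ρ m q)) := by
    rintro ⟨k, x⟩ ⟨l, y⟩ hpq
    rcases lt_trichotomy k l with h | h | h
    · exact hdis (((hRhi (k, x)).trans (hRR k l h)).trans (hRlo (l, y)))
    · subst h
      rcases lt_trichotomy x y with h | h | h
      · exact hdis (hsame k x y h)
      · exact absurd (by rw [h]) hpq
      · exact (hdis (hsame k y x h)).symm
    · exact (hdis (((hRhi (l, y)).trans (hRR l k h)).trans (hRlo (k, x)))).symm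
  have hsp : ∀ p, 0 < psp α m p := by
    rintro ⟨k, x⟩
    unfold psp
    by_cases hm : m k = true
    · simp only [hm, if_true]
      fin_cases x <;> simp <;> linarith
    · simp only [hm]
      fin_cases x <;> simp <;> linarith
  have hrel : ∀ p, r (pjb m p) ≤ plo α a R ρ m p := by
    rintro ⟨k, x⟩
    have h1 := ha k; have h2 := hak k; have h3 := haρ k; have h4 := haρk k; have h5 := hak2 k
    have e0 := hr0 k; have e1 := hr1 k
    unfold pjb plo bnd
    by_cases hm : m k = true
    · simp only [hm, if_true]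
      fin_cases x <;> simp [e0, e1] <;> linarith
    · simp only [hm]
      fin_cases x <;> simp [e0, e1] <;> linarith
  have hC : ∀ p, phi α a R ρ m p ≤ pC α a R ρ m (pjb m p) := by
    rintro ⟨k, x⟩
    have h1 := ha k; have h2 := hak k; have h3 := haρ k; have h4 := haρk k; have h5 := hak2 k
    unfold pjb phi bnd pC
    by_cases hm : m k = true
    · simp only [hm, if_true]
      fin_cases x <;> simp <;> linarith
    · simp only [hm]
      fin_cases x <;> simp <;> linarith
  have hC' : ∀ i, ∃ p, pjb m p = i ∧ phi α a R ρ m p = pC α a R ρ m i := by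
    rintro ⟨k, b⟩
    by_cases hm : m k = true
    · fin_cases b
      · exact ⟨(k, 0), by simp [pjb, hm], by simp [phi, bnd, pC, hm]⟩
      · exact ⟨(k, 2), by simp [pjb, hm], by simp [phi, bnd, pC, hm]⟩
    · fin_cases b
      · exact ⟨(k, 2), by simp [pjb, hm], by simp [phi, bnd, pC, hm]⟩
      · exact ⟨(k, 1), by simp [pjb, hm], by simp [phi, bnd, pC, hm]⟩
  have hw : ∀ i, ∑ p, (if pjb m p = i then psp α m p * (phi α a R ρ m p - plo α a R ρ m p)
      else 0) = w i := by
    rintro ⟨k, b⟩
    rw [Fintype.sum_prod_type, Finset.sum_eq_single k]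
    · have e0 := hw0 k; have e1 := hw1 k
      have f1 : ka α * (a k * kp α) = a k * 2 := by rw [← hkk]; ring
      rw [Fin.sum_univ_three]
      by_cases hm : m k = true
      · fin_cases b
        · simp [pjb, psp, phi, plo, bnd, hm, e0] <;> linarith
        · simp [pjb, psp, phi, plo, bnd, hm, e1] <;> linarith
      · fin_cases b
        · simp [pjb, psp, phi, plo, bnd, hm, e0] <;> linarith
        · simp [pjb, psp, phi, plo, bnd, hm, e1] <;> linarith
    · intro l _ hl
      refine Finset.sum_eq_zero fun x _ => ?_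
      rw [if_neg]
      intro h
      exact hl (congrArg Prod.fst h)
    · intro h; exact absurd (Finset.mem_univ _) h
  obtain ⟨σ, hσC, hσE⟩ := exists_schedule (r := r) (w := w) (C := pC α a R ρ m) hd
    (fun p => (hR p.1).trans (hRlo p)) hlt hsp hrel hC hC' (fun i => by convert hw i)
  refine ⟨σ, ?_, ?_⟩
  · rw [hσE α (by linarith)]
    congr 1
    rw [Fintype.sum_prod_type]
    unfold sA
    rw [Finset.sum_mul, Finset.sum_mul, ← Finset.sum_add_distrib]
    refine Finset.sum_congr rfl fun k _ => ?_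
    rw [Fin.sum_univ_three]
    by_cases hm : m k = true
    · simp [psp, phi, plo, bnd, hm, hkp]; ring
    · simp [psp, phi, plo, bnd, hm, hkp]; ring
  · unfold Schedule.flow
    rw [hσC, Fintype.sum_prod_type]
    unfold sA
    rw [Finset.sum_mul, Finset.sum_mul, ← Finset.sum_add_distrib]
    refine Finset.sum_congr rfl fun k _ => ?_
    rw [Fin.sum_univ_two]
    have e0 := hr0 k; have e1 := hr1 k
    by_cases hm : m k = true
    · simp [pC, hm, e0, e1]; ring
    · simp [pC, hm, e0, e1]; ring

end upper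

end Pool.Agent.Helper82.Speed
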