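import Mathlib
import Pool.Agent.Helper82.Speed.Upper

set_option autoImplicit false

namespace Pool.Agent.Helper82.Speed

open MeasureTheory Set

theorem flow_nonneg {ι : Type} [Fintype ι] {r w : ι → ℝ} (hw : ∀ i, 0 < w i)
    (σ : Schedule r w) : 0 ≤ σ.flow :=
  Finset.sum_nonneg fun i _ => sub_nonneg.2 (σ.release_le_compl i (hw i))

/-- pieces for two jobs released at time `0`, the first of which completes first -/
theorem two_jobs_aux {r w : Fin 2 → ℝ} (hr : ∀ i, r i = 0) (hw : ∀ i, 0 < w i) (σ : Schedule r w)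
    {α γ : ℝ} (hα : 1 < α) (hγ : γ = 1 / (α - 1)) (hσ : σ.energy α ≤ 1) {i j : Fin 2}
    (hij : i ≠ j) (hCC : σ.compl i ≤ σ.compl j) {c : ℝ} (hc : 0 < c) :
    (1 + γ) * (kp α * w i + w j) ≤ c * (σ.compl i + σ.compl j) + γ * c ^ (-(α - 1)) := by
  have hk := one_lt_kp hα
  have hs : 0 < α - 1 := by linarith
  have hγ0 : 0 < γ := by rw [hγ]; positivity
  set Ci := σ.compl i with hCi
  set Cj := σ.compl j with hCj
  have hCi0 : 0 ≤ Ci := σ.compl_nonneg i
  have hwki : ENNReal.ofReal (w i) ≤ σ.wk (σ.pr i) := σ.wk_pr i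
  have hwkj : ENNReal.ofReal (w j) ≤ σ.wk (σ.pr j) := σ.wk_pr j
  have hdisj : Disjoint (σ.pr i) (σ.pr j) := by
    rw [Set.disjoint_left]
    rintro x ⟨_, _, h1⟩ ⟨_, _, h2⟩
    rw [h1] at h2
    exact hij (Option.some_injective _ h2)
  have hsum : ENNReal.ofReal (w i + w j) ≤ σ.wk (σ.pr i ∪ σ.pr j) := by
    have e : σ.wk (σ.pr i ∪ σ.pr j) = σ.wk (σ.pr i) + σ.wk (σ.pr j) :=
      lintegral_union (σ.meas_pr j) hdisj
    rw [e, ENNReal.ofReal_add (hw i).le (hw j).le]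
    exact add_le_add hwki hwkj
  have hfin : σ.energy α ≠ ⊤ := ne_top_of_le_ne_top ENNReal.one_ne_top hσ
  have hmono : ∀ K : Set ℝ, K ⊆ {x | 0 ≤ x} → σ.en α K ≠ ⊤ := fun K hK =>
    ne_top_of_le_ne_top hfin (lintegral_mono_set hK)
  have hK1 : Icc 0 Ci ⊆ {x : ℝ | 0 ≤ x} := fun x hx => hx.1
  have hK2 : Ioc Ci Cj ⊆ {x : ℝ | 0 ≤ x} := fun x hx => hCi0.trans hx.1.le
  have hK12 : Disjoint (Icc 0 Ci) (Ioc Ci Cj) := by
    rw [Set.disjoint_left]; intro x h1 h2; exact absurd h1.2 (not_le.2 h2.1)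
  obtain ⟨t1, p1⟩ := σ.piece hα hCi0 (le_refl (Icc 0 Ci)) (hmono _ hK1)
  obtain ⟨t2, p2⟩ := σ.piece hα hCC (fun x hx => ⟨hx.1.le, hx.2⟩ : Ioc Ci Cj ⊆ Icc Ci Cj)
    (hmono _ hK2)
  have hy1 : w i ≤ (σ.wk (Icc 0 Ci)).toReal := by
    rw [← ENNReal.ofReal_le_iff_le_toReal t1]
    exact hwki.trans (lintegral_mono_set fun x hx => ⟨hx.1, hx.2.1⟩)
  have hy12 : w i + w j ≤ (σ.wk (Icc 0 Ci)).toReal + (σ.wk (Ioc Ci Cj)).toReal := by
    rw [← ENNReal.toReal_add t1 t2, ← ENNReal.ofReal_le_iff_le_toReal (ENNReal.add_ne_top.2 ⟨t1, t2⟩)]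
    have e : σ.wk (Icc 0 Ci ∪ Ioc Ci Cj) = σ.wk (Icc 0 Ci) + σ.wk (Ioc Ci Cj) :=
      lintegral_union measurableSet_Ioc hK12
    rw [← e]
    refine hsum.trans (lintegral_mono_set ?_)
    rintro x (hx | hx)
    · exact Or.inl ⟨hx.1, hx.2.1⟩
    · rcases le_or_gt x Ci with h | h
      · exact Or.inl ⟨hx.1, h⟩
      · exact Or.inr ⟨h, hx.2.1⟩
  have hen12 : (σ.en α (Icc 0 Ci)).toReal + (σ.en α (Ioc Ci Cj)).toReal ≤ 1 := by
    rw [← ENNReal.toReal_add (hmono _ hK1) (hmono _ hK2)]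
    have e : σ.en α (Icc 0 Ci ∪ Ioc Ci Cj) = σ.en α (Icc 0 Ci) + σ.en α (Ioc Ci Cj) :=
      lintegral_union measurableSet_Ioc hK12
    rw [← e]
    have h1 : σ.en α (Icc 0 Ci ∪ Ioc Ci Cj) ≤ 1 :=
      (lintegral_mono_set (union_subset hK1 hK2)).trans hσ
    calc (σ.en α (Icc 0 Ci ∪ Ioc Ci Cj)).toReal ≤ (1 : ENNReal).toReal :=
          ENNReal.toReal_mono ENNReal.one_ne_top h1
      _ = 1 := ENNReal.toReal_one
  set y1 := (σ.wk (Icc 0 Ci)).toReal
  set y2 := (σ.wk (Ioc Ci Cj)).toReal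
  set e1 := (σ.en α (Icc 0 Ci)).toReal
  set e2 := (σ.en α (Ioc Ci Cj)).toReal
  have hy2 : 0 ≤ y2 := ENNReal.toReal_nonneg
  have hy10 : 0 ≤ y1 := ENNReal.toReal_nonneg
  have he1 : 0 ≤ e1 := ENNReal.toReal_nonneg
  have he2 : 0 ≤ e2 := ENNReal.toReal_nonneg
  -- scaling
  have hcp : 0 < c ^ (-(α - 1)) := Real.rpow_pos_of_pos hc _
  have hscale : ∀ {Q e P : ℝ}, 0 ≤ P → Q ^ α ≤ e * P ^ (α - 1) →
      Q ^ α ≤ (c ^ (-(α - 1)) * e) * (c * P) ^ (α - 1) := by
    intro Q e P hP h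
    rw [Real.mul_rpow hc.le hP]
    have : c ^ (-(α - 1)) * c ^ (α - 1) = 1 := by
      rw [← Real.rpow_add hc]; simp
    calc Q ^ α ≤ e * P ^ (α - 1) := h
      _ = (c ^ (-(α - 1)) * c ^ (α - 1)) * (e * P ^ (α - 1)) := by rw [this, one_mul]
      _ = _ := by ring
  have p1' := two_piece hα hy10 (by linarith : 0 ≤ Ci - 0) p1
  have b1 := (bracket hα hγ (P := c * (2 * (Ci - 0))) (Q := kp α * y1) (e := c ^ (-(α - 1)) * e1)
    (mul_nonneg hc.le (by linarith)) (mul_nonneg (by linarith) hy10) (mul_nonneg hcp.le he1)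
    (hscale (by linarith) p1')).1
  have b2 := (bracket hα hγ (P := c * (Cj - Ci)) (Q := y2) (e := c ^ (-(α - 1)) * e2)
    (mul_nonneg hc.le (by linarith)) hy2 (mul_nonneg hcp.le he2)
    (hscale (by linarith) p2)).1
  have h1 : γ * (c ^ (-(α - 1)) * (e1 + e2)) ≤ γ * (c ^ (-(α - 1)) * 1) :=
    mul_le_mul_of_nonneg_left (mul_le_mul_of_nonneg_left hen12 hcp.le) hγ0.le
  have h2 : (1 + γ) * (kp α * w i + w j) ≤ (1 + γ) * (kp α * y1 + y2) := by
    refine mul_le_mul_of_nonneg_left ?_ (by linarith)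
    have h3 : (kp α - 1) * w i ≤ (kp α - 1) * y1 := mul_le_mul_of_nonneg_left hy1 (by linarith)
    linarith
  linarith

/-- The optimum for two jobs released at time `0` with energy budget `1`. -/
theorem opt_two {α γ : ℝ} (hα : 1 < α) (hγ : γ = 1 / (α - 1)) {x y : ℝ} (hx : 0 < x)
    (hxy : x ≤ y) {r w : Fin 2 → ℝ} (hr : ∀ i, r i = 0) (hw0 : w 0 = x) (hw1 : w 1 = y) :
    opt α r w 1 = (kp α * x + y) ^ (1 + γ) := by
  have hk := one_lt_kp hα
  have hy : 0 < y := lt_of_lt_of_le hx hxy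
  have hs : 0 < α - 1 := by linarith
  have hγ0 : 0 < γ := by rw [hγ]; positivity
  set Z := kp α * x + y with hZ
  have hZ0 : 0 < Z := by positivity
  have hw : ∀ i, 0 < w i := by
    intro i; fin_cases i
    · simpa [hw0] using hx
    · simpa [hw1] using hy
  have hZγ : 0 < Z ^ γ := Real.rpow_pos_of_pos hZ0 _
  have hc : (Z ^ (-γ)) ^ (-(α - 1)) = Z := by
    rw [← Real.rpow_mul hZ0.le]
    have : -γ * -(α - 1) = 1 := by rw [hγ]; field_simp
    rw [this, Real.rpow_one]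
  have hlow : ∀ σ : Schedule r w, σ.energy α ≤ 1 → Z ^ (1 + γ) ≤ σ.flow := by
    intro σ hσ
    have hfl : σ.flow = σ.compl 0 + σ.compl 1 := by
      unfold Schedule.flow; rw [Fin.sum_univ_two, hr, hr]; ring
    have hcpos : 0 < Z ^ (-γ) := Real.rpow_pos_of_pos hZ0 _
    have key : (1 + γ) * Z ≤ Z ^ (-γ) * (σ.compl 0 + σ.compl 1) + γ * Z := by
      rcases le_total (σ.compl 0) (σ.compl 1) with h | h
      · have := two_jobs_aux hr hw σ hα hγ hσ (by decide : (0 : Fin 2) ≠ 1) h hcpos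
        rw [hc, hw0, hw1] at this
        exact this
      · have := two_jobs_aux hr hw σ hα hγ hσ (by decide : (1 : Fin 2) ≠ 0) h hcpos
        rw [hc, hw0, hw1, add_comm (σ.compl 1)] at this
        refine le_trans ?_ this
        refine mul_le_mul_of_nonneg_left ?_ (by linarith)
        have : (kp α - 1) * x ≤ (kp α - 1) * y := mul_le_mul_of_nonneg_left hxy (by linarith)
        rw [hZ]; linarith
    have h1 : Z ≤ Z ^ (-γ) * σ.flow := by rw [hfl]; linarith
    have h2 : Z ^ γ * Z ≤ Z ^ γ * (Z ^ (-γ) * σ.flow) := mul_le_mul_of_nonneg_left h1 hZγ.le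
    rw [← mul_assoc, ← Real.rpow_add hZ0] at h2
    simp only [add_neg_cancel, Real.rpow_zero, one_mul] at h2
    rw [Real.rpow_add hZ0, Real.rpow_one]
    linarith
  -- the explicit schedule
  have hkx : 0 < kp α * x := mul_pos (kp_pos α) hx
  set t1 := kp α * x / 2 * Z ^ γ with ht1
  set t2 := y * Z ^ γ with ht2
  have ht10 : 0 < t1 := by positivity
  have ht20 : 0 < t2 := by positivity
  obtain ⟨σ, hσC, hσE⟩ := exists_schedule (r := r) (w := w) (C := ![t1, t1 + t2])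
    (π := Fin 2) (lo := ![0, t1]) (hi := ![t1, t1 + t2]) (sp := ![x / t1, y / t2]) (jb := id)
    (by
      intro p q hpq
      rw [Set.disjoint_left]
      intro z hz hz'
      fin_cases p <;> fin_cases q <;> simp at hpq hz hz' <;> linarith)
    (by intro p; fin_cases p <;> simp; linarith)
    (by intro p; fin_cases p <;> simp <;> linarith)
    (by intro p; fin_cases p <;> simp <;> positivity)
    (by intro p; rw [hr]; fin_cases p <;> simp; linarith)
    (by intro p; exact le_refl _)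
    (by intro i; exact ⟨i, rfl, rfl⟩)
    (by
      intro i; rw [Fin.sum_univ_two]
      fin_cases i
      · simp [hw0]; field_simp
      · simp [hw1]; field_simp)
  have hflow : σ.flow = Z ^ (1 + γ) := by
    unfold Schedule.flow
    rw [hσC, Fin.sum_univ_two, hr, hr, Real.rpow_add hZ0, Real.rpow_one]
    simp only [Matrix.cons_val_zero, Matrix.cons_val_one, sub_zero]
    rw [ht1, ht2, hZ]; ring
  have hen : σ.energy α = 1 := by
    rw [hσE α (by linarith), Fin.sum_univ_two]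
    simp only [Matrix.cons_val_zero, Matrix.cons_val_one, sub_zero, add_sub_cancel_left]
    have e1 : x / t1 = ka α * Z ^ (-γ) := by
      rw [ht1, Real.rpow_neg hZ0.le]
      have := ka_mul_kp hα
      field_simp
      linarith
    have e2 : y / t2 = Z ^ (-γ) := by
      rw [ht2, Real.rpow_neg hZ0.le]; field_simp
    have hx1 : ∀ {s t z : ℝ}, 0 < t → 0 < s → s = z / t → s ^ α * t = z * s ^ (α - 1) := by
      intro s t z ht hs' hst
      have e3 : s ^ α = s * s ^ (α - 1) := by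
        rw [show α = 1 + (α - 1) by ring, Real.rpow_add hs', Real.rpow_one]; ring_nf
      have e4 : z = s * t := by rw [hst]; field_simp
      rw [e3, e4]; ring
    have hcc : (Z ^ (-γ)) ^ (α - 1) = Z⁻¹ := by
      rw [← Real.rpow_mul hZ0.le]
      have : -γ * (α - 1) = -1 := by rw [hγ]; field_simp
      rw [this, Real.rpow_neg_one]
    have e5 : (x / t1) ^ α * t1 = x * (kp α * Z⁻¹) := by
      rw [hx1 ht10 (by positivity) rfl, e1, Real.mul_rpow (ka_pos α).le (Real.rpow_pos_of_pos hZ0 _).le,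
        hcc]
      have e6 : ka α ^ (α - 1) = kp α := by
        unfold ka kp
        rw [← Real.rpow_mul (by norm_num)]
        congr 1; ring
      rw [e6]
    have e7 : (y / t2) ^ α * t2 = y * Z⁻¹ := by
      rw [hx1 ht20 (by positivity) rfl, e2, hcc]
    rw [e5, e7]
    have : x * (kp α * Z⁻¹) + y * Z⁻¹ = 1 := by
      rw [hZ]; field_simp
    rw [this, ENNReal.ofReal_one]
  apply IsLeast.csInf_eq
  constructor
  · exact ⟨σ, by rw [hen, ENNReal.ofReal_one], hflow⟩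
  · rintro F ⟨σ', hσ', rfl⟩
    rw [ENNReal.ofReal_one] at hσ'
    exact hlow σ' hσ'

/-- numerical differentiation -/
theorem diff_bound {p z : ℝ} (hp : 1 ≤ p) (hz : 0 ≤ z) (hpz : p * z ≤ 1 / 2) :
    |(1 + z) ^ p - 1 - p * z| ≤ 2 * (p * z) ^ 2 := by
  have h1 : 1 + p * z ≤ (1 + z) ^ p := one_add_mul_self_le_rpow_one_add (by linarith) hp
  have h2 : 1 - p * z ≤ (1 + z) ^ (-p) := by
    have := rpow_neg_ge (τ := 1 + z) (q := p) (by linarith) (by linarith)
    simpa using this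
  have hpos : 0 < (1 + z) ^ p := Real.rpow_pos_of_pos (by linarith) _
  have h3 : (1 + z) ^ p ≤ 1 + p * z + 2 * (p * z) ^ 2 := by
    rw [Real.rpow_neg (by linarith)] at h2
    have h4 : (1 - p * z) * (1 + z) ^ p ≤ 1 := by
      have := mul_le_mul_of_nonneg_right h2 hpos.le
      rwa [inv_mul_cancel₀ hpos.ne'] at this
    set u := p * z
    have hu : 0 ≤ u := by positivity
    have h5 : 0 < 1 - u := by linarith
    have h6 : 1 ≤ (1 - u) * (1 + u + 2 * u ^ 2) := by nlinarith [sq_nonneg u, mul_nonneg (sq_nonneg u) (by linarith : 0 ≤ 1 - 2 * u)]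
    have h7 : (1 - u) * (1 + z) ^ p ≤ (1 - u) * (1 + u + 2 * u ^ 2) := h4.trans h6
    exact le_of_mul_le_mul_left h7 h5
  rw [abs_le]
  constructor
  · have : 0 ≤ 2 * (p * z) ^ 2 := by positivity
    linarith
  · linarith

end Pool.Agent.Helper82.Speed
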