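import Mathlib
import Pool.Agent.Helper82.Speed.Calib

set_option autoImplicit false

namespace Pool.Agent.Helper82.Speed

open MeasureTheory Set

theorem rho_le_one {α γ : ℝ} (hα : 1 < α) (hγ : γ = 1 / (α - 1)) : (1 + γ) * (kp α - 1) ≤ 1 := by
  have h : kp α ≤ 1 + (α - 1) / α := by
    have := rpow_one_add_le_one_add_mul_self (s := 1) (p := (α - 1) / α) (by norm_num)
      (div_nonneg (by linarith) (by linarith)) (by rw [div_le_one (by linarith)]; linarith)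
    unfold kp
    norm_num at this ⊢
    linarith
  have hs : 0 < α - 1 := by linarith
  have hγ1 : (1 + γ) * ((α - 1) / α) = 1 := by
    rw [hγ]; field_simp; ring
  have hγ0 : 0 < 1 + γ := by rw [hγ]; positivity
  calc (1 + γ) * (kp α - 1) ≤ (1 + γ) * ((α - 1) / α) :=
        mul_le_mul_of_nonneg_left (by linarith) hγ0.le
    _ = 1 := hγ1

theorem quot_aux {D1 D2 K p : ℝ} (h : D2 ≠ 0) :
    D1 / D2 - K = ((D1 - p * K) - K * (D2 - p)) / D2 := by
  field_simp; ring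

theorem d1_aux {v h p K : ℝ} (hh : h ≠ 0) : (v - 1) / h - p * K = (v - 1 - p * (K * h)) / h := by
  field_simp

theorem d2_aux {v1 v2 h p K : ℝ} (hh : h ≠ 0) :
    (v2 - v1) / h - p = ((v2 - 1 - p * (K * h + h)) - (v1 - 1 - p * (K * h))) / h := by
  field_simp; ring

theorem quot2_aux {v1 v2 h : ℝ} (hh : h ≠ 0) (hv : v2 - v1 ≠ 0) :
    (v1 - 1) / (v2 - v1) = ((v1 - 1) / h) / ((v2 - v1) / h) := by
  field_simp

/-- What the calibration calls give. -/
theorem calib {α γ : ℝ} (hα : 1 < α) (hγ : γ = 1 / (α - 1)) : ∃ B : ℕ, 0 < B ∧ ∃ H : ℝ, 0 < H ∧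
    ∀ h : ℝ, 0 < h → h ≤ H → ∀ v1 v2 : ℝ,
    |v1 - (kp α * h + 1) ^ (1 + γ)| ≤ h ^ 2 →
    |v2 - (kp α * h + (1 + h)) ^ (1 + γ)| ≤ h ^ 2 →
    1 < v1 ∧ v1 < v2 ∧ 0 < (v1 - 1) / h - (v2 - v1) / h ∧
    (v1 - 1) / h - (v2 - v1) / h ≤ kp α ∧
    |((v1 - 1) / h - (v2 - v1) / h) - (1 + γ) * (kp α - 1)| ≤ 2 * B * h ∧
    0 ≤ (v1 - 1) / (v2 - v1) + B * h - kp α ∧
    (v1 - 1) / (v2 - v1) + B * h - kp α ≤ 2 * B * h := by
  have hk := one_lt_kp hα
  have hk2 := kp_lt_two hα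
  have hs : 0 < α - 1 := by linarith
  have hγ0 : 0 < γ := by rw [hγ]; positivity
  set K := kp α with hK
  set p := 1 + γ with hp
  have hp1 : 1 ≤ p := by linarith
  have hρ1 := rho_le_one hα hγ
  obtain ⟨B, hB⟩ := exists_nat_ge (120 * p ^ 2 + 10)
  have hBpos : (0 : ℝ) < B := lt_of_lt_of_le (by positivity) hB
  set H := min (1 / (52 * p ^ 2 + 4))
    (min (p * (K - 1) / (2 * (34 * p ^ 2 + 3))) ((K - 1) / (34 * p ^ 2 + 3))) with hH
  have hpK : 0 < p * (K - 1) := mul_pos (by linarith) (by linarith)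
  have hK1 : 0 < K - 1 := by linarith
  have hH0 : 0 < H := lt_min (by positivity) (lt_min (by positivity) (by positivity))
  refine ⟨B, by exact_mod_cast hBpos, H, hH0, ?_⟩
  intro h hh hhH v1 v2 hv1 hv2
  have hh1 : h * (52 * p ^ 2 + 4) ≤ 1 := by
    have := hhH.trans (min_le_left _ _)
    rwa [le_div_iff₀ (by positivity)] at this
  have hh2 : h * (2 * (34 * p ^ 2 + 3)) ≤ p * (K - 1) := by
    have := (hhH.trans (min_le_right _ _)).trans (min_le_left _ _)
    rwa [le_div_iff₀ (by positivity)] at this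
  have hh3 : h * (34 * p ^ 2 + 3) ≤ K - 1 := by
    have := (hhH.trans (min_le_right _ _)).trans (min_le_right _ _)
    rwa [le_div_iff₀ (by positivity)] at this
  have hpp : p ≤ p ^ 2 := by
    rw [pow_two]; exact le_mul_of_one_le_left (by linarith) hp1
  have hph : 3 * (p * h) ≤ 1 / 2 := by
    have h1 : p * h ≤ h * p ^ 2 := by
      rw [mul_comm p h]; exact mul_le_mul_of_nonneg_left hpp hh.le
    have h2 : 0 < h * p ^ 2 := by positivity
    linarith
  have hKh : p * (K * h) ≤ 1 / 2 := by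
    have : p * (K * h) ≤ 2 * (p * h) := by
      have := mul_le_mul_of_nonneg_left hk2.le (by positivity : 0 ≤ p * h)
      linarith
    have : 0 < p * h := by positivity
    linarith
  have hKh2 : p * (K * h + h) ≤ 1 / 2 := by
    have : p * (K * h) ≤ 2 * (p * h) := by
      have := mul_le_mul_of_nonneg_left hk2.le (by positivity : 0 ≤ p * h)
      linarith
    linarith
  have d1 := diff_bound hp1 (by positivity : 0 ≤ K * h) hKh
  have d2 := diff_bound hp1 (by positivity : 0 ≤ K * h + h) hKh2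
  have b1 : 2 * (p * (K * h)) ^ 2 ≤ 8 * p ^ 2 * h ^ 2 := by
    have : K ^ 2 ≤ 4 := by nlinarith
    have e : 2 * (p * (K * h)) ^ 2 = K ^ 2 * (2 * p ^ 2 * h ^ 2) := by ring
    rw [e]
    have := mul_le_mul_of_nonneg_right this (by positivity : 0 ≤ 2 * p ^ 2 * h ^ 2)
    linarith
  have b2 : 2 * (p * (K * h + h)) ^ 2 ≤ 18 * p ^ 2 * h ^ 2 := by
    have : (K + 1) ^ 2 ≤ 9 := by nlinarith
    have e : 2 * (p * (K * h + h)) ^ 2 = (K + 1) ^ 2 * (2 * p ^ 2 * h ^ 2) := by ring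
    rw [e]
    have := mul_le_mul_of_nonneg_right this (by positivity : 0 ≤ 2 * p ^ 2 * h ^ 2)
    linarith
  have e1 : (K * h + 1) = 1 + K * h := by ring
  have e2 : (K * h + (1 + h)) = 1 + (K * h + h) := by ring
  rw [e1] at hv1
  rw [e2] at hv2
  -- errors
  have a1 : |v1 - 1 - p * (K * h)| ≤ (8 * p ^ 2 + 1) * h ^ 2 := by
    calc |v1 - 1 - p * (K * h)| = |(v1 - (1 + K * h) ^ p) + ((1 + K * h) ^ p - 1 - p * (K * h))| := by
          ring_nf
      _ ≤ |v1 - (1 + K * h) ^ p| + |(1 + K * h) ^ p - 1 - p * (K * h)| := abs_add_le _ _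
      _ ≤ h ^ 2 + 8 * p ^ 2 * h ^ 2 := add_le_add hv1 (d1.trans b1)
      _ = _ := by ring
  have a2 : |v2 - 1 - p * (K * h + h)| ≤ (18 * p ^ 2 + 1) * h ^ 2 := by
    calc |v2 - 1 - p * (K * h + h)| = |(v2 - (1 + (K * h + h)) ^ p) +
          ((1 + (K * h + h)) ^ p - 1 - p * (K * h + h))| := by ring_nf
      _ ≤ |v2 - (1 + (K * h + h)) ^ p| + |(1 + (K * h + h)) ^ p - 1 - p * (K * h + h)| :=
          abs_add_le _ _
      _ ≤ h ^ 2 + 18 * p ^ 2 * h ^ 2 := add_le_add hv2 (d2.trans b2)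
      _ = _ := by ring
  set D1 := (v1 - 1) / h with hD1
  set D2 := (v2 - v1) / h with hD2
  have c1 : |D1 - p * K| ≤ (8 * p ^ 2 + 1) * h := by
    rw [hD1, d1_aux hh.ne', abs_div, abs_of_pos hh, div_le_iff₀ hh]
    calc _ ≤ _ := a1
      _ = _ := by ring
  have c2 : |D2 - p| ≤ (26 * p ^ 2 + 2) * h := by
    rw [hD2, d2_aux (K := K) hh.ne', abs_div, abs_of_pos hh, div_le_iff₀ hh]
    calc |(v2 - 1 - p * (K * h + h)) - (v1 - 1 - p * (K * h))|
        ≤ |v2 - 1 - p * (K * h + h)| + |v1 - 1 - p * (K * h)| := abs_sub _ _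
      _ ≤ (18 * p ^ 2 + 1) * h ^ 2 + (8 * p ^ 2 + 1) * h ^ 2 := add_le_add a2 a1
      _ = _ := by ring
  have c1' := abs_le.1 c1
  have c2' := abs_le.1 c2
  have hsm1 : (26 * p ^ 2 + 2) * h ≤ 1 / 2 := by linarith
  have hsm2 : (8 * p ^ 2 + 1) * h ≤ 1 / 2 := by
    have : 0 < p ^ 2 * h := by positivity
    linarith
  have hD2pos : 1 / 2 ≤ D2 := by linarith
  have hpKpos : 1 ≤ p * K := by nlinarith
  have hD1pos : 1 / 2 ≤ D1 := by linarith
  have hrho : |D1 - D2 - p * (K - 1)| ≤ (34 * p ^ 2 + 3) * h := by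
    calc |D1 - D2 - p * (K - 1)| = |(D1 - p * K) - (D2 - p)| := by ring_nf
      _ ≤ |D1 - p * K| + |D2 - p| := abs_sub _ _
      _ ≤ (8 * p ^ 2 + 1) * h + (26 * p ^ 2 + 2) * h := add_le_add c1 c2
      _ = _ := by ring
  have hrho' := abs_le.1 hrho
  have hv1v2 : (v1 - 1) / (v2 - v1) = D1 / D2 := by
    rw [hD1, hD2]
    have : v2 - v1 ≠ 0 := by
      intro h0
      rw [hD2, h0, zero_div] at hD2pos
      linarith
    exact quot2_aux hh.ne' this
  have hquot : |D1 / D2 - K| ≤ (120 * p ^ 2 + 10) * h := by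
    have hD2' : 0 < D2 := by linarith
    rw [quot_aux (p := p) hD2'.ne', abs_div, abs_of_pos hD2', div_le_iff₀ hD2']
    have h3 : |(D1 - p * K) - K * (D2 - p)| ≤ (60 * p ^ 2 + 5) * h := by
      calc |(D1 - p * K) - K * (D2 - p)| ≤ |D1 - p * K| + |K * (D2 - p)| := abs_sub _ _
        _ = |D1 - p * K| + K * |D2 - p| := by rw [abs_mul, abs_of_pos (by linarith : 0 < K)]
        _ ≤ (8 * p ^ 2 + 1) * h + 2 * ((26 * p ^ 2 + 2) * h) :=
            add_le_add c1 (mul_le_mul hk2.le c2 (abs_nonneg _) (by norm_num))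
        _ = _ := by ring
    have h4 : (120 * p ^ 2 + 10) * h * (1 / 2) ≤ (120 * p ^ 2 + 10) * h * D2 :=
      mul_le_mul_of_nonneg_left hD2pos (by positivity)
    linarith
  have hquot' := abs_le.1 hquot
  have hBh : (120 * p ^ 2 + 10) * h ≤ B * h := mul_le_mul_of_nonneg_right hB hh.le
  have hBh2 : (34 * p ^ 2 + 3) * h ≤ 2 * B * h := by
    have : 0 < p ^ 2 * h := by positivity
    linarith
  refine ⟨?_, ?_, ?_, ?_, hrho.trans hBh2, ?_, ?_⟩
  · have : 0 < D1 * h := mul_pos (by linarith) hh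
    rw [hD1, div_mul_cancel₀ _ hh.ne'] at this
    linarith
  · have : 0 < D2 * h := mul_pos (by linarith) hh
    rw [hD2, div_mul_cancel₀ _ hh.ne'] at this
    linarith
  · linarith
  · linarith
  · rw [hv1v2]; linarith
  · rw [hv1v2]; linarith

end Pool.Agent.Helper82.Speed
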