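import Mathlib
import Pool.Agent.Helper82.Speed.Core

set_option autoImplicit false

namespace Pool.Agent.Helper82.Speed

open MeasureTheory Set

/-- The main instances: yes-instances have small optimum, and a small optimum gives a partition. -/
theorem main_gap {α γ : ℝ} (hα : 1 < α) (hγ : γ = 1 / (α - 1)) : ∃ c : ℝ, 0 < c ∧
    ∀ (n : ℕ) (a : Fin n → ℕ) (R : Fin n → ℝ) (δ ε k ρ : ℝ), 0 < n → (∀ i, 0 < a i) →
    (∀ i, 0 ≤ R i) → (∀ i j, i < j → R i + 3 * a i ≤ R j) → 0 ≤ δ → 0 < ε →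
    ((∑ i, a i : ℕ) : ℝ) ^ 2 * δ ≤ c → ((∑ i, a i : ℕ) : ℝ) * ε ≤ c →
    0 ≤ k - kp α → k - kp α ≤ δ → |ρ - (1 + γ) * (kp α - 1)| ≤ δ → 0 < ρ → ρ ≤ kp α →
    ∀ {r w : Fin n × Fin 2 → ℝ},
    (∀ i, r (i, 0) = R i) → (∀ i, w (i, 0) = a i * 2) →
    (∀ i, r (i, 1) = R i + a i * ρ) → (∀ i, w (i, 1) = a i) →
    ∀ v : ℝ, |v - opt α r w (((∑ i, a i : ℕ) : ℝ) / 2 * (3 * k + 3))| ≤ ε / 4 →
    (v ≤ ((∑ i, a i : ℕ) : ℝ) / 2 * (3 * k + 3 - ρ) + ε / 2 ↔
      ∃ m : Fin n → Bool, 2 * (∑ i, if m i then a i else 0) = ∑ i, a i) := by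
  obtain ⟨c, hc, hcount⟩ := count hα hγ
  refine ⟨c, hc, ?_⟩
  intro n a R δ ε k ρ hn ha hR hRR hδ hε hSδ hSε hk0 hkδ hρδ hρ0 hρk r w hr0 hw0 hr1 hw1 v hv
  have hk := one_lt_kp hα
  set S : ℝ := ((∑ i, a i : ℕ) : ℝ) with hS
  have hSsum : ∑ i, (a i : ℝ) = S := by rw [hS]; push_cast; rfl
  have hS1 : 1 ≤ S := by
    rw [hS]
    have h1 : 1 ≤ ∑ i, a i := by
      have h2 : a ⟨0, hn⟩ ≤ ∑ i, a i := Finset.single_le_sum (fun i _ => Nat.zero_le _) (Finset.mem_univ _)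
      have h3 := ha ⟨0, hn⟩
      omega
    exact_mod_cast h1
  have har : ∀ i, (0 : ℝ) < a i := fun i => by exact_mod_cast ha i
  have hwpos : ∀ i, 0 < w i := by
    rintro ⟨i, b⟩
    have := har i
    fin_cases b
    · simp only [Fin.zero_eta, hw0]; positivity
    · simp only [Fin.mk_one, hw1]; exact this
  set E := S / 2 * (3 * k + 3) with hE
  have hE0 : 0 ≤ E := by rw [hE]; have : 0 < k := by linarith
                         positivity
  have hbdd : BddBelow {F : ℝ | ∃ σ : Schedule r w, σ.energy α ≤ ENNReal.ofReal E ∧ σ.flow = F} :=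
    ⟨0, by rintro F ⟨σ, _, rfl⟩; exact flow_nonneg hwpos σ⟩
  have hup := fun m => upper_main α (fun i => (a i : ℝ)) R ρ m hα har hR hRR hρ0 hρk hr0 hw0 hr1 hw1
  have hcast : ∀ m : Fin n → Bool, sA (fun i => (a i : ℝ)) m =
      ((∑ i, if m i then a i else 0 : ℕ) : ℝ) := by
    intro m; unfold sA; push_cast
    exact Finset.sum_congr rfl fun i _ => by split_ifs <;> rfl
  have hv' := abs_le.1 hv
  constructor
  · intro hle
    have hne : {F : ℝ | ∃ σ : Schedule r w, σ.energy α ≤ ENNReal.ofReal E ∧ σ.flow = F}.Nonempty := by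
      obtain ⟨σ, hσ, hσ'⟩ := hup (fun _ => false)
      refine ⟨σ.flow, σ, ?_, rfl⟩
      rw [hσ]
      refine ENNReal.ofReal_le_ofReal ?_
      have : sA (fun i => (a i : ℝ)) (fun _ => false) = 0 := by unfold sA; simp
      rw [this, hSsum, hE]
      have h1 : S * (2 + kp α) ≤ S * ((3 * k + 3) / 2) :=
        mul_le_mul_of_nonneg_left (by linarith) (by linarith)
      linarith
    have hlt : opt α r w E < S / 2 * (3 * k + 3 - ρ) + ε := by linarith
    obtain ⟨F, ⟨σ, hσ, rfl⟩, hF⟩ := exists_lt_of_csInf_lt hne hlt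
    obtain ⟨m, hm0, hm⟩ := lower_main hα hγ har hR hρ0 hE0 hr0 hw0 hr1 hw1 σ hσ
    rw [hSsum] at hm0 hm
    have hSA0 : 0 ≤ sA (fun i => (a i : ℝ)) m := by rw [hcast]; positivity
    have hSAS : sA (fun i => (a i : ℝ)) m ≤ S := by
      rw [← hSsum]; unfold sA
      refine Finset.sum_le_sum fun i _ => ?_
      split_ifs
      · exact le_rfl
      · exact (har i).le
    have hfin := hcount S δ ε k ρ σ.flow (sA (fun i => (a i : ℝ)) m) hS1 hδ hε.le hSδ hSε hk0 hkδ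
      hρδ hSA0 hSAS hF.le hm0 hm
    refine ⟨m, ?_⟩
    rw [hcast] at hfin
    rw [abs_lt] at hfin
    set X := ∑ i, if m i then a i else 0 with hX
    have h1 : (2 * X : ℝ) < S + 1 := by linarith [hfin.2]
    have h2 : S < (2 * X : ℝ) + 1 := by linarith [hfin.1]
    rw [hS] at h1 h2
    have h3 : 2 * X < ∑ i, a i + 1 := by exact_mod_cast h1
    have h4 : ∑ i, a i < 2 * X + 1 := by exact_mod_cast h2
    omega
  · rintro ⟨m, hm⟩
    obtain ⟨σ, hσ, hσ'⟩ := hup m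
    have hSA : sA (fun i => (a i : ℝ)) m = S / 2 := by
      rw [hcast, hS, ← hm]; push_cast; ring
    rw [hSA, hSsum] at hσ hσ'
    have h1 : opt α r w E ≤ σ.flow := by
      refine csInf_le hbdd ⟨σ, ?_, rfl⟩
      rw [hσ, hE]
      refine ENNReal.ofReal_le_ofReal ?_
      have : S / 2 * (3 * kp α + 3) ≤ S / 2 * (3 * k + 3) :=
        mul_le_mul_of_nonneg_left (by linarith) (by linarith)
      linarith
    have h2 : σ.flow ≤ S / 2 * (3 * k + 3 - ρ) := by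
      rw [hσ']
      have : S / 2 * (3 * kp α + 3 - ρ) ≤ S / 2 * (3 * k + 3 - ρ) :=
        mul_le_mul_of_nonneg_left (by linarith) (by linarith)
      linarith
    linarith [hv'.2]

end Pool.Agent.Helper82.Speed
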