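import Mathlib
import Pool.Agent.Helper82.Speed.Defs

/-!
# The total flow time problem with an energy budget, and the problem PARTITION
-/

set_option autoImplicit false

namespace Pool.Agent.Helper82.Speed

/-- An instance is a list of jobs (release time, work) with an energy budget. It is valid if the
release times are nonnegative, and the works and the budget are positive. -/
def Valid (I : List (ℚ × ℚ) × ℚ) : Prop := (∀ j ∈ I.1, 0 ≤ j.1 ∧ 0 < j.2) ∧ 0 < I.2

/-- The optimal total flow time of an instance when the power function is `s ^ α`. -/
noncomputable def OPT (α : ℝ) (I : List (ℚ × ℚ) × ℚ) : ℝ :=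
  opt α (fun i : Fin I.1.length => ((I.1.get i).1 : ℝ)) (fun i => ((I.1.get i).2 : ℝ)) (I.2 : ℝ)

/-- PARTITION: can the list of numbers be split into two parts of equal sum? -/
def PARTITION : Set (List ℕ) := {a | ∃ s : List ℕ, s.Sublist a ∧ 2 * s.sum = a.sum}

end Pool.Agent.Helper82.Speed
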