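import Mathlib
import Pool.Agent.Helper82.Speed.Core2
import Pool.Agent.Helper82.Speed.Problem

set_option autoImplicit false

namespace Pool.Agent.Helper82.Speed

open MeasureTheory Set

/-! ### reindexing -/

def Schedule.reindex {ι ι' : Type} (e : ι ≃ ι') {r w : ι' → ℝ} (σ : Schedule r w) :
    Schedule (fun i => r (e i)) (fun i => w (e i)) where
  speed := σ.speed
  job x := (σ.job x).map e.symm
  compl i := σ.compl (e i)
  measurable_speed := σ.measurable_speed
  speed_nonneg := σ.speed_nonneg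
  measurableSet_job i := by
    have : {t | (σ.job t).map e.symm = some i} = {t | σ.job t = some (e i)} := by
      ext t
      simp only [mem_setOf_eq, Option.map_eq_some_iff]
      constructor
      · rintro ⟨j, hj, hji⟩; rw [hj, ← hji]; simp
      · intro h; exact ⟨e i, h, by simp⟩
    rw [this]; exact σ.measurableSet_job _
  released t i h := by
    rw [Option.map_eq_some_iff] at h
    obtain ⟨j, hj, hji⟩ := h
    have : e i = j := by rw [← hji]; simp
    rw [this]; exact σ.released t j hj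
  unfinished t i h := by
    rw [Option.map_eq_some_iff] at h
    obtain ⟨j, hj, hji⟩ := h
    have : e i = j := by rw [← hji]; simp
    rw [this]; exact σ.unfinished t j hj
  isLeast_compl i := by
    have : ∀ x, ((σ.job x).map e.symm = some i) = (σ.job x = some (e i)) := by
      intro x
      rw [eq_iff_iff, Option.map_eq_some_iff]
      constructor
      · rintro ⟨j, hj, hji⟩; rw [hj, ← hji]; simp
      · intro h; exact ⟨e i, h, by simp⟩
    simp only [this]
    exact σ.isLeast_compl (e i)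

theorem opt_reindex_le {ι ι' : Type} [Fintype ι] [Fintype ι'] (e : ι ≃ ι') (α : ℝ) (r w : ι' → ℝ)
    (E : ℝ) : {F : ℝ | ∃ σ : Schedule r w, σ.energy α ≤ ENNReal.ofReal E ∧ σ.flow = F} ⊆
      {F : ℝ | ∃ σ : Schedule (fun i => r (e i)) (fun i => w (e i)),
        σ.energy α ≤ ENNReal.ofReal E ∧ σ.flow = F} := by
  rintro F ⟨σ, hσ, rfl⟩
  refine ⟨σ.reindex e, hσ, ?_⟩
  unfold Schedule.flow
  exact Equiv.sum_comp e (fun i => σ.compl i - r i)

theorem opt_reindex {ι ι' : Type} [Fintype ι] [Fintype ι'] (e : ι ≃ ι') (α : ℝ) (r w : ι' → ℝ)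
    (E : ℝ) : opt α (fun i => r (e i)) (fun i => w (e i)) E = opt α r w E := by
  unfold opt
  congr 1
  apply Subset.antisymm
  · have h1 := opt_reindex_le e.symm α (fun i => r (e i)) (fun i => w (e i)) E
    have hr : (fun i => (fun i => r (e i)) (e.symm i)) = r := by funext i; simp
    have hw : (fun i => (fun i => w (e i)) (e.symm i)) = w := by funext i; simp
    rw [hr, hw] at h1
    exact h1
  · exact opt_reindex_le e α r w E

/-! ### partitions -/

theorem sublist_sum (b : List ℕ) : ∀ t : ℕ, (∃ s : List ℕ, s.Sublist b ∧ s.sum = t) ↔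
    ∃ m : Fin b.length → Bool, (∑ i, if m i then b.get i else 0) = t := by
  induction b with
  | nil =>
    intro t
    constructor
    · rintro ⟨s, hs, rfl⟩
      have : s = [] := List.sublist_nil.1 hs
      subst this
      exact ⟨fun _ => false, by simp⟩
    · rintro ⟨m, hm⟩
      exact ⟨[], List.Sublist.refl _, by simpa using hm⟩
  | cons x b ih =>
    intro t
    constructor
    · rintro ⟨s, hs, rfl⟩
      rcases List.sublist_cons_iff.1 hs with h | ⟨r, rfl, h⟩
      · obtain ⟨m, hm⟩ := (ih s.sum).1 ⟨s, h, rfl⟩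
        refine ⟨Fin.cons false m, ?_⟩
        rw [← hm]
        exact (Fin.sum_univ_succ _).trans (by simp)
      · obtain ⟨m, hm⟩ := (ih r.sum).1 ⟨r, h, rfl⟩
        refine ⟨Fin.cons true m, ?_⟩
        rw [List.sum_cons, ← hm]
        exact (Fin.sum_univ_succ _).trans (by simp)
    · rintro ⟨m, hm⟩
      have h1 : (∑ i, if m i then (x :: b).get i else 0) =
          (if m 0 then x else 0) + ∑ i : Fin b.length, if m i.succ then b.get i else 0 :=
        Fin.sum_univ_succ _
      rw [h1] at hm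
      obtain ⟨s, hs, hs'⟩ := (ih _).2 ⟨fun i => m i.succ, rfl⟩
      by_cases h0 : m 0 = true
      · refine ⟨x :: s, hs.cons_cons x, ?_⟩
        rw [List.sum_cons, hs', ← hm, if_pos h0]
      · refine ⟨s, hs.cons x, ?_⟩
        rw [hs', ← hm, if_neg h0, zero_add]

theorem mem_PARTITION_iff (b : List ℕ) : b ∈ PARTITION ↔
    ∃ m : Fin b.length → Bool, 2 * (∑ i, if m i then b.get i else 0) = ∑ i, b.get i := by
  have hsum : ∑ i, b.get i = b.sum := by
    rw [← List.sum_ofFn]; congr 1; exact List.ofFn_get b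
  rw [hsum]
  constructor
  · rintro ⟨s, hs, hs'⟩
    obtain ⟨m, hm⟩ := (sublist_sum b s.sum).1 ⟨s, hs, rfl⟩
    exact ⟨m, by rw [hm, hs']⟩
  · rintro ⟨m, hm⟩
    obtain ⟨s, hs, hs'⟩ := (sublist_sum b _).2 ⟨m, rfl⟩
    exact ⟨s, hs, by rw [hs', hm]⟩

theorem sum_filter_pos (a : List ℕ) : (a.filter (fun x => decide (0 < x))).sum = a.sum := by
  induction a with
  | nil => rfl
  | cons x a ih =>
    by_cases h : 0 < x
    · rw [List.filter_cons_of_pos (by simpa using h), List.sum_cons, List.sum_cons, ih]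
    · rw [List.filter_cons_of_neg (by simpa using h), List.sum_cons, ih]; omega

theorem filter_PARTITION (a : List ℕ) :
    a.filter (fun x => decide (0 < x)) ∈ PARTITION ↔ a ∈ PARTITION := by
  constructor
  · rintro ⟨s, hs, hs'⟩
    exact ⟨s, hs.trans List.filter_sublist, by rw [hs', sum_filter_pos]⟩
  · rintro ⟨s, hs, hs'⟩
    exact ⟨s.filter (fun x => decide (0 < x)), hs.filter _, by
      rw [sum_filter_pos, sum_filter_pos, hs']⟩

/-! ### lists of pairs of jobs -/

theorem pairs_length {β : Type} (f g : ℕ → β) (n : ℕ) :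
    ((List.range n).flatMap fun i => [f i, g i]).length = n * 2 := by
  induction n with
  | zero => rfl
  | succ n ih => rw [List.range_succ, List.flatMap_append, List.length_append, ih]; simp; ring

theorem pairs_get {β : Type} (f g : ℕ → β) (n : ℕ) : ∀ i < n,
    ((List.range n).flatMap fun i => [f i, g i])[2 * i]? = some (f i) ∧
    ((List.range n).flatMap fun i => [f i, g i])[2 * i + 1]? = some (g i) := by
  induction n with
  | zero => intro i hi; omega
  | succ n ih =>
    intro i hi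
    rw [List.range_succ, List.flatMap_append]
    have hl := pairs_length f g n
    rcases Nat.lt_succ_iff_lt_or_eq.1 hi with h | h
    · obtain ⟨h1, h2⟩ := ih i h
      rw [List.getElem?_append_left (by rw [hl]; omega), List.getElem?_append_left (by rw [hl]; omega)]
      exact ⟨h1, h2⟩
    · subst h
      rw [List.getElem?_append_right (by rw [hl]; omega), List.getElem?_append_right (by rw [hl]; omega),
        hl]
      have e1 : 2 * i - i * 2 = 0 := by omega
      have e2 : 2 * i + 1 - i * 2 = 1 := by omega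
      rw [e1, e2]
      simp

/-- the list of jobs of the main instance -/
def jobsL (b : List ℕ) (ρ : ℚ) : List (ℚ × ℚ) :=
  (List.range b.length).flatMap fun i =>
    [(((3 * (b.take i).sum : ℕ) : ℚ), ((b.getD i 0 : ℕ) : ℚ) * 2),
      (((3 * (b.take i).sum : ℕ) : ℚ) + ((b.getD i 0 : ℕ) : ℚ) * ρ, ((b.getD i 0 : ℕ) : ℚ))]

theorem take_sum_le (b : List ℕ) (i j : ℕ) (hij : i < j) (hj : j ≤ b.length) :
    (b.take i).sum + b.getD i 0 ≤ (b.take j).sum := by
  have h1 : (b.take (i + 1)).sum = (b.take i).sum + b.getD i 0 := by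
    have hi : i < b.length := by omega
    rw [List.take_succ_eq_append_getElem hi, List.sum_append, List.getD_eq_getElem _ _ hi]; simp
  rw [← h1]
  have h2 : b.take (i + 1) = (b.take j).take (i + 1) := by
    rw [List.take_take]; congr 1; omega
  rw [h2]
  have h3 := List.take_append_drop (i + 1) (b.take j)
  calc ((b.take j).take (i + 1)).sum ≤ ((b.take j).take (i + 1)).sum + ((b.take j).drop (i + 1)).sum :=
        Nat.le_add_right _ _
    _ = (b.take j).sum := by rw [← List.sum_append, h3]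

/-- **Correctness of the main instance.** -/
theorem main_list {α γ : ℝ} (hα : 1 < α) (hγ : γ = 1 / (α - 1)) : ∃ c : ℝ, 0 < c ∧
    ∀ (b : List ℕ) (δ : ℝ) (ε k ρ : ℚ), b ≠ [] → (∀ x ∈ b, 0 < x) → 0 ≤ δ → 0 < ε →
    ((b.sum : ℕ) : ℝ) ^ 2 * δ ≤ c → ((b.sum : ℕ) : ℝ) * ε ≤ c →
    0 ≤ (k : ℝ) - kp α → (k : ℝ) - kp α ≤ δ → |(ρ : ℝ) - (1 + γ) * (kp α - 1)| ≤ δ →
    0 < ρ → (ρ : ℝ) ≤ kp α →
    ∀ v : ℚ, |(v : ℝ) - OPT α (jobsL b ρ, (b.sum : ℚ) / 2 * (3 * k + 3))| ≤ (ε : ℝ) / 4 →
    (v ≤ (b.sum : ℚ) / 2 * (3 * k + 3 - ρ) + ε / 2 ↔ b ∈ PARTITION) := by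
  obtain ⟨c, hc, hmain⟩ := main_gap hα hγ
  refine ⟨c, hc, ?_⟩
  intro b δ ε k ρ hb hpos hδ hε hSδ hSε hk0 hkδ hρδ hρ0 hρk v hv
  have hsum : ∑ i, b.get i = b.sum := by
    rw [← List.sum_ofFn]; congr 1; exact List.ofFn_get b
  set L := jobsL b ρ with hL
  have hlen : L.length = b.length * 2 := pairs_length _ _ _
  let e : Fin b.length × Fin 2 ≃ Fin L.length := finProdFinEquiv.trans (finCongr hlen.symm)
  have hget := pairs_get (β := ℚ × ℚ)
    (fun i => (((3 * (b.take i).sum : ℕ) : ℚ), ((b.getD i 0 : ℕ) : ℚ) * 2))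
    (fun i => (((3 * (b.take i).sum : ℕ) : ℚ) + ((b.getD i 0 : ℕ) : ℚ) * ρ,
      ((b.getD i 0 : ℕ) : ℚ))) b.length
  have he0 : ∀ i : Fin b.length, L.get (e (i, 0)) =
      (((3 * (b.take i).sum : ℕ) : ℚ), ((b.get i : ℕ) : ℚ) * 2) := by
    intro i
    have h1 := (hget i i.2).1
    have h2 : ((e (i, 0) : Fin L.length) : ℕ) = 2 * i := by simp [e]
    have h3 : L[((e (i, 0) : Fin L.length) : ℕ)]? = some (L.get (e (i, 0))) := by
      rw [List.getElem?_eq_getElem (e (i, 0)).2]; rfl
    rw [h2] at h3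
    have h4 := h3.symm.trans h1
    rw [Option.some_injective _ h4, List.getD_eq_getElem _ _ i.2]
    rfl
  have he1 : ∀ i : Fin b.length, L.get (e (i, 1)) =
      (((3 * (b.take i).sum : ℕ) : ℚ) + ((b.get i : ℕ) : ℚ) * ρ, ((b.get i : ℕ) : ℚ)) := by
    intro i
    have h1 := (hget i i.2).2
    have h2 : ((e (i, 1) : Fin L.length) : ℕ) = 2 * i + 1 := by simp [e]; ring
    have h3 : L[((e (i, 1) : Fin L.length) : ℕ)]? = some (L.get (e (i, 1))) := by
      rw [List.getElem?_eq_getElem (e (i, 1)).2]; rfl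
    rw [h2] at h3
    have h4 := h3.symm.trans h1
    rw [Option.some_injective _ h4, List.getD_eq_getElem _ _ i.2]
    rfl
  have hopt : OPT α (L, (b.sum : ℚ) / 2 * (3 * k + 3)) =
      opt α (fun p : Fin b.length × Fin 2 => ((L.get (e p)).1 : ℝ))
        (fun p => ((L.get (e p)).2 : ℝ)) (((∑ i, b.get i : ℕ) : ℝ) / 2 * (3 * (k : ℝ) + 3)) := by
    rw [hsum]
    unfold OPT
    have h1 := opt_reindex e α (fun i => ((L.get i).1 : ℝ)) (fun i => ((L.get i).2 : ℝ))
      ((((b.sum : ℚ) / 2 * (3 * k + 3) : ℚ)) : ℝ)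
    rw [← h1]
    generalize b.sum = N
    congr 1
    push_cast
    ring
  rw [hopt] at hv
  have key := hmain b.length (fun i => b.get i) (fun i => 3 * ((b.take i).sum : ℝ)) δ ε k ρ
    (List.length_pos_iff.2 hb) (fun i => hpos _ (List.get_mem b i)) (fun i => by positivity)
    (fun i j hij => by
      have h1 := take_sum_le b i j hij j.2.le
      rw [List.getD_eq_getElem _ _ i.2] at h1
      have h2 : (((b.take i).sum : ℕ) : ℝ) + ((b[(i : ℕ)] : ℕ) : ℝ) ≤ ((b.take j).sum : ℕ) := by
        exact_mod_cast h1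
      have h3 : ((b.get i : ℕ) : ℝ) = ((b[(i : ℕ)] : ℕ) : ℝ) := rfl
      rw [h3]; linarith) hδ (by exact_mod_cast hε)
    (by rw [hsum]; exact hSδ) (by rw [hsum]; exact hSε) hk0 hkδ hρδ (by exact_mod_cast hρ0) hρk
    (r := fun p => ((L.get (e p)).1 : ℝ)) (w := fun p => ((L.get (e p)).2 : ℝ))
    (fun i => by rw [he0]; generalize (b.take i).sum = N; push_cast; ring)
    (fun i => by rw [he0]; push_cast; ring)
    (fun i => by rw [he1]; generalize (b.take i).sum = N; push_cast; ring)
    (fun i => by rw [he1]; push_cast; ring)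
    v hv
  rw [mem_PARTITION_iff, ← key, hsum]
  constructor
  · intro h
    generalize b.sum = N at h ⊢
    have : ((v : ℚ) : ℝ) ≤ (((N : ℚ) / 2 * (3 * k + 3 - ρ) + ε / 2 : ℚ) : ℝ) := by
      exact_mod_cast h
    push_cast at this
    exact this
  · intro h
    generalize b.sum = N at h ⊢
    have : ((v : ℚ) : ℝ) ≤ (((N : ℚ) / 2 * (3 * k + 3 - ρ) + ε / 2 : ℚ) : ℝ) := by
      push_cast; exact h
    exact_mod_cast this

end Pool.Agent.Helper82.Speed
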