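import Mathlib
import Pool.Agent.Helper82.Speed.Assembly
import Pool.Agent.PolyTime.Classes

set_option autoImplicit false

namespace Pool.Agent.Helper82.Speed

open Pool.Agent.PolyTime

/-- the step of the calibration calls -/
def hh (N S : ℕ) : ℚ := ((N * (S * S) : ℕ) : ℚ)⁻¹

/-- the accuracy of the main call -/
def ee (N S : ℕ) : ℚ := ((N * S : ℕ) : ℚ)⁻¹

/-- first calibration call -/
def V1 (A : (List (ℚ × ℚ) × ℚ) × ℚ → ℚ) (h : ℚ) : ℚ := A (([(0, h), (0, 1)], 1), h * h)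

/-- second calibration call -/
def V2 (A : (List (ℚ × ℚ) × ℚ) × ℚ → ℚ) (h : ℚ) : ℚ := A (([(0, h), (0, 1 + h)], 1), h * h)

/-- approximation of the release offset -/
def rho (A : (List (ℚ × ℚ) × ℚ) × ℚ → ℚ) (h : ℚ) : ℚ := (V1 A h - 1) / h - (V2 A h - V1 A h) / h

/-- approximation of `kp α` from above -/
def kk (A : (List (ℚ × ℚ) × ℚ) × ℚ → ℚ) (B : ℕ) (h : ℚ) : ℚ :=
  (V1 A h - 1) / (V2 A h - V1 A h) + (B : ℚ) * h

/-- the decision on lists of positive numbers -/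
def dec (A : (List (ℚ × ℚ) × ℚ) × ℚ → ℚ) (N B : ℕ) (b : List ℕ) : Bool :=
  decide (A ((jobsL b (rho A (hh N b.sum)),
      (b.sum : ℚ) / 2 * (3 * kk A B (hh N b.sum) + 3)), ee N b.sum / 4) ≤
    (b.sum : ℚ) / 2 * (3 * kk A B (hh N b.sum) + 3 - rho A (hh N b.sum)) + ee N b.sum / 2)

/-- the algorithm -/
def algo (A : (List (ℚ × ℚ) × ℚ) × ℚ → ℚ) (N B : ℕ) (a : List ℕ) : Bool :=
  bif (a.filter (fun x => decide (0 < x))).isEmpty then true
    else dec A N B (a.filter (fun x => decide (0 < x)))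

section poly

theorem polyTime_jobsL : PolyTime (fun p : List ℕ × ℚ => jobsL p.1 p.2) := by
  unfold jobsL
  fun_prop

theorem polyTime_hh (N : ℕ) : PolyTime (fun S : ℕ => hh N S) := by
  unfold hh
  fun_prop

theorem polyTime_ee (N : ℕ) : PolyTime (fun S : ℕ => ee N S) := by
  unfold ee
  fun_prop

theorem polyTime_V1 {A : (List (ℚ × ℚ) × ℚ) × ℚ → ℚ} (hA : PolyTime A) :
    PolyTime (fun h : ℚ => V1 A h) := by
  unfold V1
  fun_prop

theorem polyTime_V2 {A : (List (ℚ × ℚ) × ℚ) × ℚ → ℚ} (hA : PolyTime A) :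
    PolyTime (fun h : ℚ => V2 A h) := by
  unfold V2
  fun_prop

theorem polyTime_rho {A : (List (ℚ × ℚ) × ℚ) × ℚ → ℚ} (hA : PolyTime A) :
    PolyTime (fun h : ℚ => rho A h) := by
  have h1 := polyTime_V1 hA
  have h2 := polyTime_V2 hA
  unfold rho
  fun_prop

theorem polyTime_kk {A : (List (ℚ × ℚ) × ℚ) × ℚ → ℚ} (hA : PolyTime A) (B : ℕ) :
    PolyTime (fun h : ℚ => kk A B h) := by
  have h1 := polyTime_V1 hA
  have h2 := polyTime_V2 hA
  unfold kk
  fun_prop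

theorem polyTime_dec {A : (List (ℚ × ℚ) × ℚ) × ℚ → ℚ} (hA : PolyTime A) (N B : ℕ) :
    PolyTime (fun b : List ℕ => dec A N B b) := by
  have h1 := polyTime_rho hA
  have h2 := polyTime_kk hA B
  have h3 := polyTime_hh N
  have h4 := polyTime_ee N
  have h5 := polyTime_jobsL
  have h6 : PolyTime (fun b : List ℕ => jobsL b (rho A (hh N b.sum))) := by
    have : PolyTime (fun b : List ℕ => (b, rho A (hh N b.sum))) := by fun_prop
    exact h5.comp this
  unfold dec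
  fun_prop

theorem polyTime_algo {A : (List (ℚ × ℚ) × ℚ) × ℚ → ℚ} (hA : PolyTime A) (N B : ℕ) :
    PolyTime (fun b : List ℕ => algo A N B b) := by
  have h1 := polyTime_dec hA N B
  unfold algo
  fun_prop

end poly

section correct

variable {α γ : ℝ}

theorem OPT_two (hα : 1 < α) (hγ : γ = 1 / (α - 1)) {x y : ℚ} (hx : 0 < x) (hxy : x ≤ y) :
    OPT α ([(0, x), (0, y)], 1) = (kp α * x + y) ^ (1 + γ) := by
  have h := opt_two hα hγ (x := (x : ℝ)) (y := (y : ℝ)) (by exact_mod_cast hx)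
    (by exact_mod_cast hxy)
    (r := fun i : Fin 2 => ((([(0, x), (0, y)] : List (ℚ × ℚ)).get i).1 : ℝ))
    (w := fun i : Fin 2 => ((([(0, x), (0, y)] : List (ℚ × ℚ)).get i).2 : ℝ))
    (by intro i; fin_cases i <;> simp) (by simp) (by simp)
  unfold OPT
  rw [Rat.cast_one]
  exact h

theorem V1_approx {A : (List (ℚ × ℚ) × ℚ) × ℚ → ℚ} (hα : 1 < α) (hγ : γ = 1 / (α - 1))
    (hA : ∀ I (ε : ℚ), Valid I → 0 < ε → |(A (I, ε) : ℝ) - OPT α I| ≤ ε) {h : ℚ} (hh : 0 < h)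
    (hh1 : h ≤ 1) : |(V1 A h : ℝ) - (kp α * h + 1) ^ (1 + γ)| ≤ (h : ℝ) ^ 2 := by
  have h1 := hA ([(0, h), (0, 1)], 1) (h * h) (by
    refine ⟨?_, by norm_num⟩
    intro j hj
    simp only [List.mem_cons, List.not_mem_nil, or_false] at hj
    rcases hj with rfl | rfl <;> simp [hh]) (by positivity)
  rw [OPT_two hα hγ hh hh1] at h1
  push_cast at h1
  rw [sq]
  exact h1

theorem V2_approx {A : (List (ℚ × ℚ) × ℚ) × ℚ → ℚ} (hα : 1 < α) (hγ : γ = 1 / (α - 1))
    (hA : ∀ I (ε : ℚ), Valid I → 0 < ε → |(A (I, ε) : ℝ) - OPT α I| ≤ ε) {h : ℚ} (hh : 0 < h) :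
    |(V2 A h : ℝ) - (kp α * h + (1 + h)) ^ (1 + γ)| ≤ (h : ℝ) ^ 2 := by
  have h1 := hA ([(0, h), (0, 1 + h)], 1) (h * h) (by
    refine ⟨?_, by norm_num⟩
    intro j hj
    simp only [List.mem_cons, List.not_mem_nil, or_false] at hj
    rcases hj with rfl | rfl
    · simp [hh]
    · simp only [le_refl, true_and]; positivity) (by positivity)
  rw [OPT_two hα hγ hh (by linarith)] at h1
  push_cast at h1
  rw [sq]
  exact h1

theorem valid_jobsL {b : List ℕ} {ρ : ℚ} (hb : ∀ x ∈ b, 0 < x) (hρ : 0 ≤ ρ) :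
    ∀ j ∈ jobsL b ρ, 0 ≤ j.1 ∧ 0 < j.2 := by
  intro j hj
  unfold jobsL at hj
  rw [List.mem_flatMap] at hj
  obtain ⟨i, hi, hj⟩ := hj
  have hi' : i < b.length := List.mem_range.1 hi
  have h0 : 0 < b.getD i 0 := by
    rw [List.getD_eq_getElem _ _ hi']
    exact hb _ (List.getElem_mem hi')
  have h0' : (0 : ℚ) < ((b.getD i 0 : ℕ) : ℚ) := by exact_mod_cast h0
  simp only [List.mem_cons, List.not_mem_nil, or_false] at hj
  rcases hj with rfl | rfl
  · exact ⟨Nat.cast_nonneg _, by positivity⟩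
  · refine ⟨?_, h0'⟩
    exact add_nonneg (Nat.cast_nonneg _) (mul_nonneg h0'.le hρ)

/-- **Correctness of the algorithm.** -/
theorem algo_correct (hα : 1 < α) {A : (List (ℚ × ℚ) × ℚ) × ℚ → ℚ}
    (hA : ∀ I (ε : ℚ), Valid I → 0 < ε → |(A (I, ε) : ℝ) - OPT α I| ≤ ε) :
    ∃ N B : ℕ, ∀ a : List ℕ, algo A N B a = true ↔ a ∈ PARTITION := by
  obtain ⟨γ, hγ⟩ : ∃ γ : ℝ, γ = 1 / (α - 1) := ⟨_, rfl⟩
  obtain ⟨B, hB, H, hH, hcal⟩ := calib hα hγ
  obtain ⟨c, hc, hmain⟩ := main_list hα hγ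
  obtain ⟨N, hN⟩ := exists_nat_ge (max (1 / H) (max (2 * B / c) (max (1 / c) 1)))
  have hBr : (0 : ℝ) < B := by exact_mod_cast hB
  have hN1 : (1 : ℝ) ≤ N :=
    (le_max_right _ _).trans ((le_max_right _ _).trans ((le_max_right _ _).trans hN))
  have hN0 : (0 : ℝ) < N := by linarith
  have hNH : 1 / (N : ℝ) ≤ H := by
    have := (le_max_left _ _).trans hN
    rw [div_le_iff₀ hH] at this
    rw [div_le_iff₀ hN0]; linarith
  have hNB : 2 * B / (N : ℝ) ≤ c := by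
    have := ((le_max_left _ _).trans (le_max_right _ _)).trans hN
    rw [div_le_iff₀ hc] at this
    rw [div_le_iff₀ hN0]; linarith
  have hNc : 1 / (N : ℝ) ≤ c := by
    have := ((le_max_left _ _).trans ((le_max_right _ _).trans (le_max_right _ _))).trans hN
    rw [div_le_iff₀ hc] at this
    rw [div_le_iff₀ hN0]; linarith
  refine ⟨N, B, fun a => ?_⟩
  unfold algo
  set b := a.filter (fun x => decide (0 < x)) with hb
  rw [← filter_PARTITION a, ← hb]
  have hpos : ∀ x ∈ b, 0 < x := by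
    intro x hx
    rw [hb, List.mem_filter] at hx
    simpa using hx.2
  by_cases hbn : b = []
  · rw [hbn]
    simp only [List.isEmpty_nil, cond_true, true_iff]
    exact ⟨[], List.Sublist.refl _, rfl⟩
  have hbe : b.isEmpty = false := by
    cases hb' : b with
    | nil => exact absurd hb' hbn
    | cons x l => rfl
  rw [hbe, cond_false]
  unfold dec
  rw [decide_eq_true_eq]
  -- the sum
  have hS1 : 1 ≤ b.sum := by
    cases hb' : b with
    | nil => exact absurd hb' hbn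
    | cons x l =>
      rw [List.sum_cons]
      have := hpos x (by rw [hb']; exact List.mem_cons_self)
      omega
  obtain ⟨S, hS⟩ : ∃ S, S = b.sum := ⟨_, rfl⟩
  rw [← hS] at hS1
  have hS1r : (1 : ℝ) ≤ (S : ℝ) := by exact_mod_cast hS1
  have hN1n : 0 < N := by
    rcases Nat.eq_zero_or_pos N with h | h
    · rw [h] at hN0; simp at hN0
    · exact h
  obtain ⟨h, hhdef⟩ : ∃ h, h = hh N S := ⟨_, rfl⟩
  have hhr : (h : ℝ) = 1 / (N * (S : ℝ) ^ 2) := by
    rw [hhdef]; unfold hh; push_cast; rw [one_div, sq]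
  have hh0 : 0 < h := by
    rw [hhdef]; unfold hh; positivity
  have hh0r : (0 : ℝ) < h := by exact_mod_cast hh0
  have hhN : (h : ℝ) ≤ 1 / N := by
    rw [hhr]
    apply one_div_le_one_div_of_le hN0
    have : 1 ≤ (S : ℝ) ^ 2 := one_le_pow₀ hS1r
    nlinarith
  have hh1r : (h : ℝ) ≤ 1 := hhN.trans (by rw [div_le_one hN0]; exact hN1)
  have hh1 : h ≤ 1 := by exact_mod_cast hh1r
  have hv1 := V1_approx hα hγ hA hh0 hh1
  have hv2 := V2_approx hα hγ hA hh0
  obtain ⟨c1, c2, c3, c4, c5, c6, c7⟩ := hcal h hh0r (hhN.trans hNH) (V1 A h) (V2 A h) hv1 hv2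
  -- cast forms
  have hρr : ((rho A h : ℚ) : ℝ) = ((V1 A h : ℝ) - 1) / h - ((V2 A h : ℝ) - V1 A h) / h := by
    unfold rho; push_cast; ring
  have hkr : ((kk A B h : ℚ) : ℝ) = ((V1 A h : ℝ) - 1) / ((V2 A h : ℝ) - V1 A h) + B * h := by
    unfold kk; push_cast; ring
  obtain ⟨ρ, hρdef⟩ : ∃ ρ, ρ = rho A h := ⟨_, rfl⟩
  obtain ⟨k, hkdef⟩ : ∃ k, k = kk A B h := ⟨_, rfl⟩
  obtain ⟨ε, hεdef⟩ : ∃ ε, ε = ee N S := ⟨_, rfl⟩
  rw [← hρr, ← hρdef] at c3 c4 c5
  rw [← hkr, ← hkdef] at c6 c7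
  have hε0 : 0 < ε := by
    rw [hεdef]; unfold ee; positivity
  have hεr : (ε : ℝ) = 1 / (N * S) := by
    rw [hεdef]; unfold ee; push_cast; rw [one_div]
  have hρ0 : 0 < ρ := by exact_mod_cast c3
  have hk0r : (0 : ℝ) < k := by
    have := one_lt_kp hα
    linarith
  have hk0 : 0 < k := by exact_mod_cast hk0r
  rw [← hS, ← hhdef, ← hρdef, ← hkdef, ← hεdef]
  have hval : Valid (jobsL b ρ, (S : ℚ) / 2 * (3 * k + 3)) :=
    ⟨valid_jobsL hpos hρ0.le, by positivity⟩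
  have hv := hA _ (ε / 4) hval (by positivity)
  push_cast at hv
  have key := hmain b (2 * B * h) ε k ρ hbn hpos (by positivity) hε0 (by
      rw [← hS, hhr]
      calc (S : ℝ) ^ 2 * (2 * B * (1 / (N * (S : ℝ) ^ 2))) = 2 * B / N := by
            have : (S : ℝ) ≠ 0 := by linarith
            field_simp
        _ ≤ c := hNB) (by
      rw [← hS, hεr]
      calc (S : ℝ) * (1 / (N * (S : ℝ))) = 1 / N := by
            have : (S : ℝ) ≠ 0 := by linarith
            field_simp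
        _ ≤ c := hNc) c6 c7 c5 hρ0 c4
    (A ((jobsL b ρ, (S : ℚ) / 2 * (3 * k + 3)), ε / 4)) (by rw [← hS]; exact hv)
  rw [← hS] at key
  exact key

end correct

end Pool.Agent.Helper82.Speed
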